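import Pool.Agent.RadoE.Count

/-!
# The tuple: `2^i N` plus Fermat numbers
-/

namespace Pool.Agent.RadoE

open Finset

/-- superincreasing weights. -/
lemma superinc {v : ℕ → ℕ} {D : ℕ} : ∀ {n : ℕ}, (∀ i < n, D * ∑ l ∈ range i, v l < v i) → ∀ {d : ℕ → ℤ},
    (∀ i < n, |d i| ≤ D) → ∑ i ∈ range n, d i * v i = 0 → ∀ i < n, d i = 0 := by
  intro n
  induction n with
  | zero => intro _ _ _ _ i hi; omega
  | succ n ih =>
    intro hv d hd h0 i hi
    rw [Finset.sum_range_succ] at h0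
    have h1 : |∑ i ∈ range n, d i * (v i : ℤ)| ≤ D * ∑ i ∈ range n, (v i : ℤ) := by
      refine (Finset.abs_sum_le_sum_abs _ _).trans ?_
      rw [Finset.mul_sum]
      refine Finset.sum_le_sum fun j hj => ?_
      rw [Finset.mem_range] at hj
      rw [abs_mul, Nat.abs_cast]
      exact mul_le_mul_of_nonneg_right (hd j (by omega)) (by positivity)
    have h2 : (D * ∑ i ∈ range n, (v i : ℤ)) < v n := by exact_mod_cast hv n (by omega)
    have h3 : d n = 0 := by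
      by_contra hne
      have h4 : 1 ≤ |d n| := Int.one_le_abs hne
      have h5 : |d n * (v n : ℤ)| = |∑ i ∈ range n, d i * (v i : ℤ)| := by
        have : d n * (v n : ℤ) = -∑ i ∈ range n, d i * (v i : ℤ) := by linarith
        rw [this, abs_neg]
      rw [abs_mul, Nat.abs_cast] at h5
      have h6 : (v n : ℤ) ≤ |d n| * v n := le_mul_of_one_le_left (by positivity) h4
      linarith
    rw [h3, zero_mul, add_zero] at h0
    rcases Nat.lt_succ_iff_lt_or_eq.mp hi with h | h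
    · exact ih (fun i hi => hv i (by omega)) (fun i hi => hd i (by omega)) h0 i h
    · rw [h, h3]

lemma superinc_fin {v : ℕ → ℕ} {D n : ℕ} (hv : ∀ i < n, D * ∑ l ∈ range i, v l < v i) {d : Fin n → ℤ}
    (hd : ∀ i, |d i| ≤ D) (h0 : ∑ i, d i * (v i : ℤ) = 0) : d = 0 := by
  funext i
  have h1 := superinc hv (d := fun j => if h : j < n then d ⟨j, h⟩ else 0) (fun j hj => by
    simp only [dif_pos hj]; exact hd _) (by
    rw [Finset.sum_range]
    simpa using h0) i i.2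
  simpa using h1

/-- the Fermat numbers used. -/
def rr (n i : ℕ) : ℕ := Nat.fermatNumber (n + 3 + i)

lemma rr_eq (n i : ℕ) : rr n i = 2 ^ 2 ^ (n + 3 + i) + 1 := rfl

lemma rr_pos (n i : ℕ) : 0 < rr n i := by rw [rr_eq]; exact Nat.succ_pos _

lemma rr_superinc {n i : ℕ} (hi : i < n) : 2 ^ (2 * n + 1) * ∑ l ∈ range i, rr n l < rr n i := by
  rcases Nat.eq_zero_or_pos i with rfl | hi0
  · simp [rr_pos]
  have h1 : ∑ l ∈ range i, rr n l ≤ ∑ _l ∈ range i, 2 ^ (2 ^ (n + 3 + i - 1) + 1) := by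
    refine Finset.sum_le_sum fun l hl => ?_
    rw [Finset.mem_range] at hl
    rw [rr_eq, pow_succ]
    have h2 : 2 ^ 2 ^ (n + 3 + l) ≤ 2 ^ 2 ^ (n + 3 + i - 1) :=
      Nat.pow_le_pow_right (by norm_num) (Nat.pow_le_pow_right (by norm_num) (by omega))
    have h3 : 1 ≤ 2 ^ 2 ^ (n + 3 + i - 1) := Nat.one_le_two_pow
    omega
  rw [Finset.sum_const, card_range, smul_eq_mul] at h1
  have h4 : i ≤ 2 ^ n := hi.le.trans Nat.lt_two_pow_self.le
  calc 2 ^ (2 * n + 1) * ∑ l ∈ range i, rr n l ≤ 2 ^ (2 * n + 1) * (2 ^ n * 2 ^ (2 ^ (n + 3 + i - 1) + 1)) :=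
        Nat.mul_le_mul_left _ (h1.trans (Nat.mul_le_mul_right _ h4))
    _ = 2 ^ (3 * n + 2 + 2 ^ (n + 3 + i - 1)) := by rw [← pow_add, ← pow_add]; congr 1; ring
    _ ≤ 2 ^ 2 ^ (n + 3 + i) := by
        refine Nat.pow_le_pow_right (by norm_num) ?_
        have h5 : 2 ^ (n + 3 + i) = 2 * 2 ^ (n + 3 + i - 1) := by
          rw [← pow_succ']; congr 1; omega
        have h6 : 2 ^ (n + 1) * 2 * 2 ≤ 2 ^ (n + 3 + i - 1) := by
          rw [← pow_succ, ← pow_succ]
          exact Nat.pow_le_pow_right (by norm_num) (by omega)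
        have h7 : n + 1 < 2 ^ (n + 1) := Nat.lt_two_pow_self
        omega
    _ < rr n i := by rw [rr_eq]; exact Nat.lt_succ_self _

lemma two_superinc (i : ℕ) : 1 * ∑ l ∈ range i, 2 ^ l < 2 ^ i := by
  rw [one_mul]
  induction i with
  | zero => simp
  | succ i ih => rw [Finset.sum_range_succ, pow_succ]; omega

/-- the bound for denominators. -/
def QQ (n : ℕ) : ℕ := 2 ^ (2 * n + 1) * ∑ i ∈ range n, rr n i

/-- the leading digits. -/
def mm (n i : ℕ) : ℕ := 2 ^ n + 2 ^ i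

/-- the first `n` coefficients. -/
def aa (n N : ℕ) (i : Fin n) : ℕ := mm n i * N + rr n i

/-- sign vectors. -/
def IsSign {n : ℕ} (ε : Fin n → ℤ) : Prop := ∀ i, ε i = -1 ∨ ε i = 0 ∨ ε i = 1

lemma IsSign.abs_le {n : ℕ} {ε : Fin n → ℤ} (h : IsSign ε) (i : Fin n) : |ε i| ≤ 1 := by
  rcases h i with h | h | h <;> rw [h] <;> simp

lemma abs_sum_sign_le {n : ℕ} {ε : Fin n → ℤ} (h : IsSign ε) (v : Fin n → ℕ) :
    |∑ i, ε i * (v i : ℤ)| ≤ ∑ i, (v i : ℤ) := by
  refine (Finset.abs_sum_le_sum_abs _ _).trans (Finset.sum_le_sum fun i _ => ?_)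
  rw [abs_mul, Nat.abs_cast]
  exact mul_le_of_le_one_left (by positivity) (h.abs_le i)

lemma sum_two_pow_lt (n : ℕ) : ∑ i : Fin n, ((2 ^ (i : ℕ) : ℕ) : ℤ) < 2 ^ n := by
  have h := two_superinc n
  rw [one_mul, Finset.sum_range] at h
  exact_mod_cast h

lemma sum_mm_lt (n : ℕ) : ∑ i : Fin n, mm n i < (n + 1) * 2 ^ n := by
  have h := two_superinc n
  rw [one_mul, Finset.sum_range] at h
  unfold mm
  rw [Finset.sum_add_distrib, Finset.sum_const, Finset.card_univ, Fintype.card_fin, smul_eq_mul]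
  linarith

lemma sum_mm_le (n : ℕ) : ∑ i : Fin n, (mm n i : ℤ) ≤ 2 ^ (2 * n) := by
  have h1 := (sum_mm_lt n).le
  have h2 : (n + 1) * 2 ^ n ≤ 2 ^ n * 2 ^ n := Nat.mul_le_mul_right _ (Nat.lt_two_pow_self)
  have h3 : 2 ^ n * 2 ^ n = 2 ^ (2 * n) := by rw [← pow_add]; congr 1; ring
  exact_mod_cast (h3 ▸ h1.trans h2)

lemma sum_two_ne {n : ℕ} {ε : Fin n → ℤ} (h : IsSign ε) (hne : ε ≠ 0) :
    ∑ i, ε i * (mm n i : ℤ) ≠ 0 := by
  intro h0
  have h1 : ∑ i, ε i * (mm n i : ℤ) = 2 ^ n * ∑ i, ε i + ∑ i, ε i * ((2 ^ (i : ℕ) : ℕ) : ℤ) := by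
    rw [Finset.mul_sum, ← Finset.sum_add_distrib]
    refine Finset.sum_congr rfl fun i _ => ?_
    unfold mm
    push_cast
    ring
  rw [h1] at h0
  have h2 : |∑ i, ε i * ((2 ^ (i : ℕ) : ℕ) : ℤ)| < 2 ^ n := (abs_sum_sign_le h _).trans_lt (sum_two_pow_lt n)
  have h3 : ∑ i, ε i = 0 := by
    by_contra hne0
    have h4 : 1 ≤ |∑ i, ε i| := Int.one_le_abs hne0
    have h5 : |2 ^ n * ∑ i, ε i| = |∑ i, ε i * ((2 ^ (i : ℕ) : ℕ) : ℤ)| := by
      have : 2 ^ n * ∑ i, ε i = -∑ i, ε i * ((2 ^ (i : ℕ) : ℕ) : ℤ) := by linarith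
      rw [this, abs_neg]
    rw [abs_mul, abs_of_pos (by positivity : (0 : ℤ) < 2 ^ n)] at h5
    have h6 : (2 : ℤ) ^ n ≤ 2 ^ n * |∑ i, ε i| := le_mul_of_one_le_right (by positivity) h4
    linarith
  rw [h3, mul_zero, zero_add] at h0
  exact hne (superinc_fin (v := fun l => 2 ^ l) (D := 1) (fun i _ => two_superinc i) (fun i => by
    exact_mod_cast h.abs_le i) h0)

/-- the determinant of two sign vectors. -/
lemma det_ne {n : ℕ} {ε ε' : Fin n → ℤ} (h : IsSign ε) (h' : IsSign ε') (hne : ε ≠ 0) (hne' : ε' ≠ 0)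
    (h1 : ε' ≠ ε) (h2 : ε' ≠ -ε) :
    (∑ i, ε' i * (mm n i : ℤ)) * (∑ i, ε i * (rr n i : ℤ)) -
      (∑ i, ε i * (mm n i : ℤ)) * (∑ i, ε' i * (rr n i : ℤ)) ≠ 0 := by
  set m := ∑ i, ε i * (mm n i : ℤ) with hm
  set m' := ∑ i, ε' i * (mm n i : ℤ) with hm'
  intro h0
  have hm0 : m ≠ 0 := sum_two_ne h hne
  have hm0' : m' ≠ 0 := sum_two_ne h' hne'
  have hmb : |m| ≤ 2 ^ (2 * n) := (abs_sum_sign_le h _).trans (sum_mm_le n)
  have hmb' : |m'| ≤ 2 ^ (2 * n) := (abs_sum_sign_le h' _).trans (sum_mm_le n)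
  have h3 : (fun i => m' * ε i - m * ε' i) = (0 : Fin n → ℤ) := by
    refine superinc_fin (v := rr n) (D := 2 ^ (2 * n + 1)) (fun i hi => rr_superinc hi) (fun i => ?_) ?_
    · have e1 : |m' * ε i - m * ε' i| ≤ |m' * ε i| + |m * ε' i| := abs_sub _ _
      have e2 : |m' * ε i| ≤ |m'| := by
        rw [abs_mul]; exact mul_le_of_le_one_right (abs_nonneg _) (h.abs_le i)
      have e3 : |m * ε' i| ≤ |m| := by
        rw [abs_mul]; exact mul_le_of_le_one_right (abs_nonneg _) (h'.abs_le i)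
      push_cast
      rw [pow_succ]
      linarith
    · rw [← h0, Finset.mul_sum, Finset.mul_sum, ← Finset.sum_sub_distrib]
      exact Finset.sum_congr rfl fun i _ => by ring
  -- the two vectors are proportional
  have h4 : ∀ i, m' * ε i = m * ε' i := fun i => by
    have := congrFun h3 i
    simp only [Pi.zero_apply] at this
    linarith
  obtain ⟨j, hj⟩ : ∃ j, ε j ≠ 0 := by
    by_contra hcon
    push Not at hcon
    exact hne (funext hcon)
  have hj' : ε' j ≠ 0 := by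
    intro h5
    have := h4 j
    rw [h5, mul_zero] at this
    rcases mul_eq_zero.mp this with h6 | h6
    · exact hm0' h6
    · exact hj h6
  have h5 : m' = m ∨ m' = -m := by
    have := h4 j
    rcases h j with e1 | e1 | e1
    · rcases h' j with e2 | e2 | e2
      · left; rw [e1, e2] at this; linarith
      · exact absurd e2 hj'
      · right; rw [e1, e2] at this; linarith
    · exact absurd e1 hj
    · rcases h' j with e2 | e2 | e2
      · right; rw [e1, e2] at this; linarith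
      · exact absurd e2 hj'
      · left; rw [e1, e2] at this; linarith
  rcases h5 with h5 | h5
  · apply h1
    funext i
    have := h4 i
    rw [h5] at this
    exact (mul_left_cancel₀ hm0 this).symm
  · apply h2
    funext i
    have := h4 i
    rw [h5] at this
    have h6 : m * ε' i = m * (-ε i) := by linarith
    exact mul_left_cancel₀ hm0 h6

lemma sum_aa {n N : ℕ} (ε : Fin n → ℤ) : ∑ i, ε i * (aa n N i : ℤ) =
    (∑ i, ε i * (mm n i : ℤ)) * N + ∑ i, ε i * (rr n i : ℤ) := by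
  rw [Finset.sum_mul, ← Finset.sum_add_distrib]
  refine Finset.sum_congr rfl fun i _ => ?_
  unfold aa
  push_cast
  ring

lemma sum_rr_le (n : ℕ) : 2 * ∑ i ∈ range n, rr n i ≤ QQ n := by
  unfold QQ
  refine Nat.mul_le_mul_right _ ?_
  rw [pow_succ]
  have : 1 ≤ 2 ^ (2 * n) := Nat.one_le_two_pow
  omega

/-- a linear form of a sign vector is large. -/
lemma sum_aa_ge {n N : ℕ} (hN : QQ n ≤ N) {ε : Fin n → ℤ} (h : IsSign ε) (hne : ε ≠ 0) :
    (N : ℤ) ≤ 2 * |∑ i, ε i * (aa n N i : ℤ)| := by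
  rw [sum_aa]
  set m := ∑ i, ε i * (mm n i : ℤ) with hm
  set q := ∑ i, ε i * (rr n i : ℤ) with hq
  have h1 : 1 ≤ |m| := Int.one_le_abs (sum_two_ne h hne)
  have h2 : |q| ≤ ∑ i : Fin n, (rr n i : ℤ) := abs_sum_sign_le h _
  have h3 : 2 * ∑ i : Fin n, (rr n i : ℤ) ≤ N := by
    have h4 := (sum_rr_le n).trans hN
    rw [Finset.sum_range] at h4
    exact_mod_cast h4
  have h5 : |m * N| = |m| * N := by rw [abs_mul, Nat.abs_cast]
  have h6 : (N : ℤ) ≤ |m| * N := le_mul_of_one_le_left (by positivity) h1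
  have h7 : |m * N| - |q| ≤ |m * N + q| := by
    have := abs_sub_abs_le_abs_sub (m * N) (-q)
    rw [abs_neg, sub_neg_eq_add] at this
    exact this
  linarith

/-- two non-proportional relations force a rational approximation with small denominator. -/
theorem relation {n N : ℕ} (hN0 : 0 < N) (hN : QQ n ≤ N) {ε ε' : Fin n → ℤ} (h : IsSign ε) (h' : IsSign ε')
    (hne : ε ≠ 0) (hne' : ε' ≠ 0) (h1 : ε' ≠ ε) (h2 : ε' ≠ -ε) {y κ : ℝ}
    (hκZ : 2 * ((∑ i, aa n N i : ℕ) : ℝ) * κ < 1) {k k' : ℤ}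
    (hy : |((∑ i, ε i * (aa n N i : ℤ) : ℤ) : ℝ) * y - k| ≤ κ)
    (hy' : |((∑ i, ε' i * (aa n N i : ℤ) : ℤ) : ℝ) * y - k'| ≤ κ) :
    ∃ q : ℕ, 0 < q ∧ q ≤ QQ n ∧ ∃ b : ℤ, |y - b / q| ≤ 2 * κ / N := by
  set m := ∑ i, ε i * (mm n i : ℤ) with hm
  set m' := ∑ i, ε' i * (mm n i : ℤ) with hm'
  set q := ∑ i, ε i * (rr n i : ℤ) with hq
  set q' := ∑ i, ε' i * (rr n i : ℤ) with hq'
  set s := ∑ i, ε i * (aa n N i : ℤ) with hs
  set s' := ∑ i, ε' i * (aa n N i : ℤ) with hs'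
  set Z := ∑ i, aa n N i with hZ
  have hsm : s = m * N + q := sum_aa ε
  have hsm' : s' = m' * N + q' := sum_aa ε'
  set Δ : ℤ := m' * q - m * q' with hΔ
  have hΔ0 : Δ ≠ 0 := det_ne h h' hne hne' h1 h2
  have hΔs : m' * s - m * s' = Δ := by rw [hsm, hsm', hΔ]; ring
  have hmb : |m| ≤ 2 ^ (2 * n) := (abs_sum_sign_le h _).trans (sum_mm_le n)
  have hmb' : |m'| ≤ 2 ^ (2 * n) := (abs_sum_sign_le h' _).trans (sum_mm_le n)
  have hqb : |q| ≤ ∑ i : Fin n, (rr n i : ℤ) := abs_sum_sign_le h _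
  have hqb' : |q'| ≤ ∑ i : Fin n, (rr n i : ℤ) := abs_sum_sign_le h' _
  have hΔQ : |Δ| ≤ QQ n := by
    have e1 : |Δ| ≤ |m' * q| + |m * q'| := abs_sub _ _
    rw [abs_mul, abs_mul] at e1
    have e2 : |m'| * |q| ≤ 2 ^ (2 * n) * ∑ i : Fin n, (rr n i : ℤ) :=
      mul_le_mul hmb' hqb (abs_nonneg _) (by positivity)
    have e3 : |m| * |q'| ≤ 2 ^ (2 * n) * ∑ i : Fin n, (rr n i : ℤ) :=
      mul_le_mul hmb hqb' (abs_nonneg _) (by positivity)
    have e4 : ((QQ n : ℕ) : ℤ) = 2 * (2 ^ (2 * n) * ∑ i : Fin n, (rr n i : ℤ)) := by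
      unfold QQ
      rw [Finset.sum_range, pow_succ]
      push_cast
      ring
    rw [e4]
    linarith
  have hsZ : |s| ≤ Z := by
    have := abs_sum_sign_le h (aa n N)
    rw [hZ]; push_cast; exact this
  have hsZ' : |s'| ≤ Z := by
    have := abs_sum_sign_le h' (aa n N)
    rw [hZ]; push_cast; exact this
  have hsN : (N : ℤ) ≤ 2 * |s| := sum_aa_ge hN h hne
  have hN' : (0 : ℤ) < N := by exact_mod_cast hN0
  have hs0 : s ≠ 0 := by
    intro h0
    rw [h0, abs_zero] at hsN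
    linarith
  have hκ0 : 0 ≤ κ := (abs_nonneg _).trans hy
  -- the two rationals agree
  have hint : s' * k = s * k' := by
    have e1 : |((s' * k - s * k' : ℤ) : ℝ)| < 1 := by
      have e2 : ((s' * k - s * k' : ℤ) : ℝ) = s * ((s' : ℝ) * y - k') - s' * ((s : ℝ) * y - k) := by
        push_cast; ring
      rw [e2]
      have e3 : |(s : ℝ) * ((s' : ℝ) * y - k') - s' * ((s : ℝ) * y - k)| ≤
          |(s : ℝ) * ((s' : ℝ) * y - k')| + |s' * ((s : ℝ) * y - k)| := abs_sub _ _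
      rw [abs_mul, abs_mul] at e3
      have e4 : |(s : ℝ)| ≤ Z := by exact_mod_cast hsZ
      have e5 : |(s' : ℝ)| ≤ Z := by exact_mod_cast hsZ'
      have e6 : |(s : ℝ)| * |(s' : ℝ) * y - k'| ≤ Z * κ := mul_le_mul e4 hy' (abs_nonneg _) (by positivity)
      have e7 : |(s' : ℝ)| * |(s : ℝ) * y - k| ≤ Z * κ := mul_le_mul e5 hy (abs_nonneg _) (by positivity)
      linarith
    have e8 : |s' * k - s * k'| < 1 := by exact_mod_cast e1
    have e9 := Int.abs_lt_one_iff.mp e8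
    linarith
  set b : ℤ := m' * k - m * k' with hb
  have hbs : b * s = k * Δ := by
    rw [hb, ← hΔs]
    have : m * k' * s = m * (s' * k) := by rw [hint]; ring
    linear_combination -this
  refine ⟨Δ.natAbs, Int.natAbs_pos.mpr hΔ0, ?_, b * Δ.sign, ?_⟩
  · have : ((Δ.natAbs : ℕ) : ℤ) ≤ QQ n := by rw [Int.natCast_natAbs]; exact hΔQ
    exact_mod_cast this
  · have hΔr : ((Δ : ℤ) : ℝ) ≠ 0 := by exact_mod_cast hΔ0
    have hsr : ((s : ℤ) : ℝ) ≠ 0 := by exact_mod_cast hs0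
    have e1 : (((b * Δ.sign : ℤ) : ℝ)) / (Δ.natAbs : ℕ) = (k : ℝ) / s := by
      have e2 : ((Δ.natAbs : ℕ) : ℝ) = (Δ.sign : ℝ) * Δ := by
        have := Int.sign_mul_self_eq_natAbs Δ
        have h9 : (((Δ.natAbs : ℕ) : ℤ) : ℝ) = ((Δ.sign * Δ : ℤ) : ℝ) := by rw [this]
        rw [Int.cast_mul] at h9
        rw [← h9]
        exact (Int.cast_natCast _).symm
      have hsg : ((Δ.sign : ℤ) : ℝ) ≠ 0 := by
        have := Int.sign_eq_zero_iff_zero.not.mpr hΔ0
        exact_mod_cast this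
      rw [e2, div_eq_div_iff (mul_ne_zero hsg hΔr) hsr]
      have : (b : ℝ) * s = k * Δ := by exact_mod_cast hbs
      push_cast
      linear_combination (Δ.sign : ℝ) * this
    rw [e1]
    have e3 : y - (k : ℝ) / s = ((s : ℝ) * y - k) / s := by field_simp
    rw [e3, abs_div, div_le_div_iff₀ (abs_pos.mpr hsr) (by exact_mod_cast hN0)]
    have e4 : (N : ℝ) ≤ 2 * |(s : ℝ)| := by exact_mod_cast hsN
    calc |(s : ℝ) * y - k| * N ≤ κ * (2 * |(s : ℝ)|) := mul_le_mul hy e4 (by positivity) hκ0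
      _ = _ := by ring

lemma mm_le {n : ℕ} (i : Fin n) : mm n i ≤ 2 ^ (2 * n + 1) := by
  unfold mm
  have h1 : 2 ^ (i : ℕ) ≤ 2 ^ n := Nat.pow_le_pow_right (by norm_num) i.2.le
  have h2 : 2 ^ n ≤ 2 ^ (2 * n) := Nat.pow_le_pow_right (by norm_num) (by omega)
  rw [pow_succ]
  omega

lemma mm_pos (n i : ℕ) : 0 < mm n i := by unfold mm; positivity

lemma rr_le_QQ {n : ℕ} (i l : Fin n) : mm n l * rr n i ≤ QQ n := by
  unfold QQ
  exact Nat.mul_le_mul (mm_le l)
    (Finset.single_le_sum (f := rr n) (fun _ _ => Nat.zero_le _) (Finset.mem_range.mpr i.2))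

/-- the coefficients are pairwise coprime. -/
theorem aa_coprime {n N : ℕ} (hN : (QQ n).factorial ∣ N) {i l : Fin n} (hil : i ≠ l) :
    Nat.Coprime (aa n N i) (aa n N l) := by
  by_contra hcon
  obtain ⟨p, hp, hpi, hpl⟩ := Nat.Prime.not_coprime_iff_dvd.mp hcon
  -- `p` divides the difference
  have hlt : ∀ i l : Fin n, i < l → mm n l * rr n i < mm n i * rr n l := by
    intro i l hil
    have h1 := rr_superinc l.2
    have h2 : rr n i ≤ ∑ j ∈ range (l : ℕ), rr n j :=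
      Finset.single_le_sum (f := rr n) (fun _ _ => Nat.zero_le _) (Finset.mem_range.mpr hil)
    calc mm n l * rr n i ≤ 2 ^ (2 * n + 1) * ∑ j ∈ range (l : ℕ), rr n j := Nat.mul_le_mul (mm_le l) h2
      _ < rr n l := h1
      _ ≤ mm n i * rr n l := Nat.le_mul_of_pos_left _ (mm_pos _ _)
  have hne : mm n l * rr n i ≠ mm n i * rr n l := by
    rcases lt_or_gt_of_ne hil with h | h
    · exact (hlt i l h).ne
    · exact (hlt l i h).ne'
  have hpQ : p ≤ QQ n := by
    have hd : (p : ℤ) ∣ (mm n l * rr n i : ℤ) - (mm n i * rr n l : ℤ) := by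
      have h1 : (p : ℤ) ∣ (aa n N i : ℤ) := by exact_mod_cast hpi
      have h2 : (p : ℤ) ∣ (aa n N l : ℤ) := by exact_mod_cast hpl
      have h3 : (mm n l * rr n i : ℤ) - (mm n i * rr n l : ℤ) =
          mm n l * (aa n N i : ℤ) - mm n i * (aa n N l : ℤ) := by
        unfold aa
        push_cast
        ring
      rw [h3]
      exact dvd_sub (Dvd.dvd.mul_left h1 _) (Dvd.dvd.mul_left h2 _)
    have h4 : (mm n l * rr n i : ℤ) - (mm n i * rr n l : ℤ) ≠ 0 := by
      rw [sub_ne_zero]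
      exact_mod_cast hne
    have h5 := Int.le_of_dvd (abs_pos.mpr h4) ((dvd_abs _ _).mpr hd)
    have h6 : |(mm n l * rr n i : ℤ) - (mm n i * rr n l : ℤ)| ≤ QQ n := by
      have g1 : (mm n l * rr n i : ℤ) ≤ QQ n := by exact_mod_cast rr_le_QQ i l
      have g2 : (mm n i * rr n l : ℤ) ≤ QQ n := by exact_mod_cast rr_le_QQ l i
      have g3 : (0 : ℤ) ≤ mm n l * rr n i := by positivity
      have g4 : (0 : ℤ) ≤ mm n i * rr n l := by positivity
      rw [abs_le]
      constructor <;> linarith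
    exact_mod_cast h5.trans h6
  have hpN : p ∣ N := ((Nat.Prime.dvd_factorial hp).mpr hpQ).trans hN
  have hri : p ∣ rr n i := (Nat.dvd_add_right (Dvd.dvd.mul_left hpN _)).mp hpi
  have hrl : p ∣ rr n l := (Nat.dvd_add_right (Dvd.dvd.mul_left hpN _)).mp hpl
  have hco : Nat.Coprime (rr n i) (rr n l) := by
    unfold rr
    refine Nat.coprime_fermatNumber_fermatNumber ?_
    intro h
    apply hil
    exact Fin.ext (by omega)
  exact Nat.Prime.not_coprime_iff_dvd.mpr ⟨p, hp, hri, hrl⟩ hco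

lemma aa_ge {n N : ℕ} (i : Fin n) : 2 ^ n * N ≤ aa n N i := by
  unfold aa mm
  rw [add_mul]
  omega

lemma sum_aa_le {n N : ℕ} (hN : QQ n ≤ N) : ∑ i, aa n N i ≤ (n + 1) * 2 ^ n * N := by
  have h1 : ∑ i, aa n N i = (∑ i : Fin n, mm n i) * N + ∑ i : Fin n, rr n i := by
    rw [Finset.sum_mul, ← Finset.sum_add_distrib]
    rfl
  have h3 : ∑ i : Fin n, rr n i ≤ N := by
    have h4 := (sum_rr_le n).trans hN
    rw [Finset.sum_range] at h4
    omega
  rw [h1]
  calc _ ≤ (∑ i : Fin n, mm n i) * N + N := by omega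
    _ = ((∑ i : Fin n, mm n i) + 1) * N := by ring
    _ ≤ _ := Nat.mul_le_mul_right _ (sum_mm_lt n)

/-- Rado's condition fails for the tuple. -/
theorem coef_ne {n : ℕ} (hn : 0 < n) {a : Fin n → ℕ} {S N : ℕ} (hS0 : 0 < S) (hSN : S < N) (ha : ∀ i, N ≤ a i)
    (I : Finset (Fin (n + 3))) (hI : I.Nonempty) : ∑ i ∈ I, coef a S i ≠ 0 := by
  classical
  have hNZ : N ≤ ∑ i, a i :=
    (ha ⟨0, hn⟩).trans (Finset.single_le_sum (f := a) (fun _ _ => Nat.zero_le _) (Finset.mem_univ _))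
  -- positivity and total
  have hpos : ∀ i : Fin (n + 3), i ≠ Fin.last (n + 2) → (N : ℤ) ≤ coef a S i := by
    intro i
    unfold coef
    refine Fin.lastCases ?_ (fun i => ?_) i
    · intro h; exact absurd rfl h
    · intro _
      rw [Fin.snoc_castSucc]
      refine Fin.lastCases ?_ (fun i => ?_) i
      · rw [Fin.snoc_last]
        have : (N : ℤ) ≤ ((∑ i, a i : ℕ) : ℤ) := by exact_mod_cast hNZ
        have h0 : (0 : ℤ) ≤ ((∑ i, a i : ℕ) : ℤ) := by positivity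
        linarith
      · rw [Fin.snoc_castSucc]
        refine Fin.lastCases ?_ (fun i => ?_) i
        · rw [Fin.snoc_last]
          exact_mod_cast hNZ
        · rw [Fin.snoc_castSucc]
          exact_mod_cast ha i
  have htot : ∑ i, coef a S i = S := by
    have := sum_coef a S (fun _ => 1)
    simp only [mul_one] at this
    rw [this]
    push_cast
    ring
  have hN0 : (0 : ℤ) < N := by exact_mod_cast (by omega : 0 < N)
  by_cases hl : Fin.last (n + 2) ∈ I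
  · -- complement
    have h1 : ∑ i ∈ I, coef a S i = S - ∑ i ∈ Iᶜ, coef a S i := by
      rw [← htot, ← Finset.sum_add_sum_compl I]
      ring
    rw [h1]
    rcases Finset.eq_empty_or_nonempty Iᶜ with h2 | ⟨j, hj⟩
    · rw [h2, Finset.sum_empty, sub_zero]
      exact_mod_cast hS0.ne'
    · have h3 : ∀ i ∈ Iᶜ, (0 : ℤ) ≤ coef a S i := fun i hi =>
        hN0.le.trans (hpos i fun h => (Finset.mem_compl.mp hi) (h ▸ hl))
      have h4 : coef a S j ≤ ∑ i ∈ Iᶜ, coef a S i := Finset.single_le_sum h3 hj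
      have h5 : (N : ℤ) ≤ coef a S j := hpos j fun h => (Finset.mem_compl.mp hj) (h ▸ hl)
      have h6 : (S : ℤ) < N := by exact_mod_cast hSN
      intro h7
      linarith
  · obtain ⟨j, hj⟩ := hI
    have h3 : ∀ i ∈ I, (0 : ℤ) ≤ coef a S i := fun i hi => hN0.le.trans (hpos i fun h => hl (h ▸ hi))
    have h4 : coef a S j ≤ ∑ i ∈ I, coef a S i := Finset.single_le_sum h3 hj
    have h5 : (N : ℤ) ≤ coef a S j := hpos j fun h => hl (h ▸ hj)
    intro h7
    linarith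

end Pool.Agent.RadoE
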