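import Pool.Agent.RadoE.LV
import Pool.Agent.RadoE.Tuple

/-!
# The arcs
-/

namespace Pool.Agent.RadoE

open Finset

/-- `y` is in a major arc. -/
def IsMaj (n N : ℕ) (κ y : ℝ) : Prop := ∃ q : ℕ, 0 < q ∧ q ≤ QQ n ∧ ∃ b : ℤ, |y - b / q| ≤ 2 * κ / N

lemma card_le_of_dist {T : Finset ℕ} {D : ℝ} (hD : 0 ≤ D) (h : ∀ x ∈ T, ∀ y ∈ T, (x : ℝ) - y ≤ D) :
    (T.card : ℝ) ≤ D + 1 := by
  rcases T.eq_empty_or_nonempty with rfl | hT
  · simp; linarith
  · set m := T.min' hT with hm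
    have h1 : T ⊆ Finset.Icc m (m + ⌊D⌋₊) := by
      intro x hx
      rw [Finset.mem_Icc]
      have h2 : m ≤ x := Finset.min'_le _ _ hx
      refine ⟨h2, ?_⟩
      have h3 := h x hx m (Finset.min'_mem _ _)
      have h4 : ((x - m : ℕ) : ℝ) ≤ D := by
        rw [Nat.cast_sub h2]
        exact h3
      have h5 : x - m ≤ ⌊D⌋₊ := Nat.le_floor h4
      omega
    have h2 := Finset.card_le_card h1
    rw [Nat.card_Icc] at h2
    have h3 : (T.card : ℝ) ≤ (⌊D⌋₊ : ℝ) + 1 := by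
      have : T.card ≤ ⌊D⌋₊ + 1 := by omega
      exact_mod_cast this
    have h4 := Nat.floor_le hD
    linarith

open Classical in
/-- the number of points of the major arcs. -/
lemma card_maj {n N R : ℕ} (hR : 0 < R) {κ : ℝ} (hκ : 0 ≤ κ) (hN : 0 < N) (hsmall : QQ n * (2 * κ / N) < 1) :
    (((range R).filter (fun x : ℕ => IsMaj n N κ ((x : ℝ) / R))).card : ℝ) ≤
      QQ n * (QQ n + 1) * (4 * κ * R / N + 1) := by
  have hR' : (0 : ℝ) < R := by exact_mod_cast hR
  have hN' : (0 : ℝ) < N := by exact_mod_cast hN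
  set Q := QQ n with hQ
  set ρ := 2 * κ / N with hρ
  have hρ0 : 0 ≤ ρ := by positivity
  have hsub : (range R).filter (fun x : ℕ => IsMaj n N κ ((x : ℝ) / R)) ⊆
      ((Finset.Icc 1 Q) ×ˢ (range (Q + 1))).biUnion (fun p : ℕ × ℕ =>
        (range R).filter (fun x : ℕ => |(x : ℝ) / R - (p.2 : ℝ) / p.1| ≤ ρ)) := by
    intro x hx
    rw [Finset.mem_filter, Finset.mem_range] at hx
    obtain ⟨hxR, q, hq0, hqQ, b, hb⟩ := hx
    have hq0' : (0 : ℝ) < q := by exact_mod_cast hq0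
    have hqρ : ρ < 1 / q := by
      rw [lt_div_iff₀ hq0']
      have : (q : ℝ) ≤ Q := by exact_mod_cast hqQ
      nlinarith
    have hx0 : (0 : ℝ) ≤ (x : ℝ) / R := by positivity
    have hx1 : (x : ℝ) / R < 1 := by
      rw [div_lt_one hR']
      exact_mod_cast hxR
    have hb0 : 0 ≤ b := by
      by_contra hneg
      have h1 : b ≤ -1 := by omega
      have h2 : (b : ℝ) / q ≤ -(1 / q) := by
        rw [← neg_div, div_le_div_iff_of_pos_right hq0']
        exact_mod_cast h1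
      have h3 := (abs_le.mp hb).2
      linarith
    have hbq : b ≤ q := by
      by_contra hneg
      have h1 : (q : ℤ) + 1 ≤ b := by omega
      have h2 : 1 + 1 / (q : ℝ) ≤ (b : ℝ) / q := by
        rw [le_div_iff₀ hq0']
        have : ((q : ℝ) + 1) ≤ b := by exact_mod_cast h1
        rw [add_mul, one_div, inv_mul_cancel₀ hq0'.ne', one_mul]
        exact this
      have h3 := (abs_le.mp hb).1
      linarith
    obtain ⟨b', rfl⟩ := Int.eq_ofNat_of_zero_le hb0
    rw [Finset.mem_biUnion]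
    refine ⟨(q, b'), ?_, ?_⟩
    · rw [Finset.mem_product, Finset.mem_Icc, Finset.mem_range]
      have : b' ≤ q := by exact_mod_cast hbq
      refine ⟨⟨hq0, hqQ⟩, ?_⟩
      show b' < Q + 1
      omega
    · rw [Finset.mem_filter, Finset.mem_range]
      refine ⟨hxR, ?_⟩
      simpa using hb
  have h1 := (Finset.card_le_card hsub).trans Finset.card_biUnion_le
  have h2 : ∀ p ∈ (Finset.Icc 1 Q) ×ˢ (range (Q + 1)),
      (((range R).filter (fun x : ℕ => |(x : ℝ) / R - (p.2 : ℝ) / p.1| ≤ ρ)).card : ℝ) ≤ 4 * κ * R / N + 1 := by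
    intro p _
    refine card_le_of_dist (by positivity) fun x hx y hy => ?_
    rw [Finset.mem_filter] at hx hy
    have h3 := (abs_le.mp hx.2).2
    have h4 := (abs_le.mp hy.2).1
    have h5 : (x : ℝ) / R - y / R ≤ 2 * ρ := by linarith
    rw [← sub_div, div_le_iff₀ hR'] at h5
    refine h5.trans (le_of_eq ?_)
    rw [hρ]
    ring
  have h3 : (((range R).filter (fun x : ℕ => IsMaj n N κ ((x : ℝ) / R))).card : ℝ) ≤
      ∑ p ∈ (Finset.Icc 1 Q) ×ˢ (range (Q + 1)),
        (((range R).filter (fun x : ℕ => |(x : ℝ) / R - (p.2 : ℝ) / p.1| ≤ ρ)).card : ℝ) := by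
    exact_mod_cast h1
  refine h3.trans ((Finset.sum_le_sum h2).trans ?_)
  rw [Finset.sum_const, nsmul_eq_mul, Finset.card_product, Nat.card_Icc, card_range]
  push_cast
  simp

/-- the number of large values on the minor arcs. -/
theorem minor_count {n N w : ℕ} (hN0 : 0 < N) (hN : QQ n ≤ N) (hw0 : 0 < w) {κ : ℝ} (hκ : κ = 3 ^ n / w)
    (hκZ : 2 * ((∑ i, aa n N i : ℕ) : ℝ) * κ < 1) {f : ℕ → ℝ} (hf0 : ∀ t, 0 ≤ f t) (hf1 : ∀ t, f t ≤ 1) {β : ℝ}
    (hβ : 0 < β) (hsum : ∑ t ∈ range w, f t = β * w) {δ : ℝ} (hδ : 0 ≤ δ) {m : ℕ}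
    (hm : 3 / 2 < Real.exp (δ ^ 2 * m / 2) * β) {y : ℝ} (hy : ¬ IsMaj n N κ y) :
    ((Finset.univ : Finset (Fin n)).filter (fun i => δ * (β * w) ≤ ‖F f w (aa n N i * y)‖)).card ≤ m := by
  classical
  have hw : (0 : ℝ) < w := by exact_mod_cast hw0
  have hκ0 : 0 < κ := by rw [hκ]; positivity
  set I := (Finset.univ : Finset (Fin n)).filter (fun i => δ * (β * w) ≤ ‖F f w (aa n N i * y)‖) with hI
  -- a set without relations
  have key : ∀ I' : Finset (Fin n), I' ⊆ I → (∀ ε : Fin n → ℤ, IsSign ε → (∀ i, i ∉ I' → ε i = 0) → ε ≠ 0 →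
      ∀ k : ℤ, κ ≤ |((∑ i, ε i * (aa n N i : ℤ) : ℤ) : ℝ) * y - k|) → I'.card < m := by
    intro I' hI' hrel
    have h1 := large_values (fun i => (aa n N i : ℝ) * y) I' w hκ0 (fun ε hε hε0 hne k => by
      have h2 := hrel ε hε hε0 hne k
      have h3 : ((∑ i, ε i * (aa n N i : ℤ) : ℤ) : ℝ) * y = ∑ i, (ε i : ℝ) * ((aa n N i : ℝ) * y) := by
        push_cast
        rw [Finset.sum_mul]
        exact Finset.sum_congr rfl fun i _ => by ring
      rw [h3] at h2
      exact h2) f hf0 hf1 (B := β * w) (by positivity) hsum (δ := δ) hδ (fun i hi => by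
        have := hI' hi
        rw [hI, Finset.mem_filter] at this
        exact this.2)
    rw [Fintype.card_fin] at h1
    have h4 : (3 : ℝ) ^ n / (2 * κ) = w / 2 := by
      rw [hκ]
      field_simp
    rw [h4] at h1
    have h5 : Real.exp (δ ^ 2 * I'.card / 2) * β ≤ 3 / 2 := by
      have h6 : Real.exp (δ ^ 2 * I'.card / 2) * β * w ≤ 3 / 2 * w := by nlinarith
      exact le_of_mul_le_mul_right h6 hw
    by_contra hcon
    push Not at hcon
    have h7 : Real.exp (δ ^ 2 * m / 2) ≤ Real.exp (δ ^ 2 * I'.card / 2) := by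
      rw [Real.exp_le_exp]
      have h8 : (m : ℝ) ≤ I'.card := by exact_mod_cast hcon
      have h9 := mul_le_mul_of_nonneg_left h8 (sq_nonneg δ)
      linarith
    have := mul_le_mul_of_nonneg_right h7 hβ.le
    linarith
  by_cases hex : ∃ ε : Fin n → ℤ, IsSign ε ∧ ε ≠ 0 ∧ ∃ k : ℤ, |((∑ i, ε i * (aa n N i : ℤ) : ℤ) : ℝ) * y - k| < κ
  · obtain ⟨ε0, hs0, hne0, k0, hk0⟩ := hex
    obtain ⟨i0, hi0⟩ : ∃ j, ε0 j ≠ 0 := by
      by_contra hcon
      push Not at hcon
      exact hne0 (funext hcon)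
    have h1 := key (I.erase i0) (Finset.erase_subset _ _) (fun ε hε hε0 hne k => by
      by_contra hlt
      push Not at hlt
      have hi : ε i0 = 0 := hε0 i0 (by simp)
      apply hy
      refine relation hN0 hN hs0 hε hne0 hne ?_ ?_ hκZ hk0.le hlt.le
      · rintro rfl
        exact hi0 hi
      · intro h
        rw [h] at hi
        simp only [Pi.neg_apply, neg_eq_zero] at hi
        exact hi0 hi)
    have h2 := Finset.pred_card_le_card_erase (s := I) (a := i0)
    omega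
  · push Not at hex
    have h1 := key I (Finset.Subset.refl _) (fun ε hε _ hne k => hex ε hε hne k)
    exact h1.le

end Pool.Agent.RadoE
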