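import Mathlib

/-!
# Exponential sums on an interval: norms, geometric sums, orthogonality
-/

namespace Pool.Agent.RadoE

open Finset

/-- `e(x) = exp(2 π i x)`. -/
noncomputable def e (x : ℝ) : ℂ := Complex.exp ((2 * Real.pi * x : ℝ) * Complex.I)

lemma e_add (x y : ℝ) : e (x + y) = e x * e y := by
  rw [e, e, e, ← Complex.exp_add]
  congr 1
  push_cast
  ring

lemma e_zero : e 0 = 1 := by simp [e]

lemma norm_e (x : ℝ) : ‖e x‖ = 1 := Complex.norm_exp_ofReal_mul_I _

lemma e_neg (x : ℝ) : e (-x) = (starRingEnd ℂ) (e x) := by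
  rw [e, e, ← Complex.exp_conj]
  congr 1
  rw [map_mul, Complex.conj_ofReal, Complex.conj_I]
  push_cast
  ring

lemma e_ne_zero (x : ℝ) : e x ≠ 0 := Complex.exp_ne_zero _

lemma e_int (n : ℤ) : e n = 1 := by
  rw [e, Complex.exp_eq_one_iff]
  refine ⟨n, ?_⟩
  push_cast
  ring

lemma e_nat (n : ℕ) : e n = 1 := by
  have := e_int n
  simpa using this

lemma e_add_int (x : ℝ) (n : ℤ) : e (x + n) = e x := by
  rw [e_add, e_int, mul_one]

lemma e_sub_int (x : ℝ) (n : ℤ) : e (x - n) = e x := by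
  have := e_add_int x (-n)
  rwa [Int.cast_neg, ← sub_eq_add_neg] at this

lemma e_nsmul (x : ℝ) (n : ℕ) : e (n * x) = e x ^ n := by
  rw [e, e, ← Complex.exp_nat_mul]
  congr 1
  push_cast
  ring

lemma e_sum {ι : Type*} (s : Finset ι) (g : ι → ℝ) : e (∑ i ∈ s, g i) = ∏ i ∈ s, e (g i) := by
  classical
  induction s using Finset.induction_on with
  | empty => simp [e_zero]
  | insert a s ha ih => rw [Finset.sum_insert ha, Finset.prod_insert ha, e_add, ih]

/-- `|e(x) - 1| = 2 |sin(π x)|`. -/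
lemma norm_e_sub_one (x : ℝ) : ‖e x - 1‖ = 2 * |Real.sin (Real.pi * x)| := by
  have h : e x - 1 = e (x / 2) * (2 * Real.sin (Real.pi * x) * Complex.I) := by
    have h1 : e x = e (x / 2) * e (x / 2) := by rw [← e_add]; ring_nf
    have h2 : e (x / 2) * e (-(x / 2)) = 1 := by rw [← e_add]; simp [e_zero]
    have h3 : e (x / 2) - e (-(x / 2)) = 2 * Real.sin (Real.pi * x) * Complex.I := by
      rw [e_neg, e, Complex.exp_ofReal_mul_I,
        show (2 * Real.pi * (x / 2) : ℝ) = Real.pi * x by ring]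
      rw [map_add, map_mul, Complex.conj_ofReal, Complex.conj_ofReal, Complex.conj_I]
      ring
    rw [← h3, mul_sub, h2, ← h1]
  rw [h, norm_mul, norm_e, one_mul, norm_mul, norm_mul, Complex.norm_I, mul_one, Complex.norm_real,
    Real.norm_eq_abs]
  simp

lemma norm_e_sub_one_le (x : ℝ) : ‖e x - 1‖ ≤ 2 * Real.pi * |x| := by
  rw [norm_e_sub_one]
  have h := Real.abs_sin_le_abs (x := Real.pi * x)
  rw [abs_mul, abs_of_pos Real.pi_pos] at h
  nlinarith

lemma norm_e_sub_e_le (x y : ℝ) : ‖e x - e y‖ ≤ 2 * Real.pi * |x - y| := by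
  have h : e x - e y = e y * (e (x - y) - 1) := by
    rw [mul_sub, ← e_add, mul_one]
    congr 2
    ring
  rw [h, norm_mul, norm_e, one_mul]
  exact norm_e_sub_one_le _

/-- `|e(x) - 1| ≥ 4 ρ` if `x` is at distance at least `ρ` from the integers. -/
lemma four_mul_le_norm_e_sub_one {x ρ : ℝ} (h : ∀ m : ℤ, ρ ≤ |x - m|) : 4 * ρ ≤ ‖e x - 1‖ := by
  set z : ℝ := x - round x with hz
  have hz1 : |z| ≤ 1 / 2 := abs_sub_round x
  have hz2 : e x = e z := by rw [hz, e_sub_int]
  have hz3 : ρ ≤ |z| := h _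
  rw [hz2, norm_e_sub_one]
  have h1 : 2 * |z| ≤ |Real.sin (Real.pi * z)| := by
    rcases le_total 0 z with h0 | h0
    · rw [abs_of_nonneg h0] at hz1 ⊢
      have h2 : 2 / Real.pi * (Real.pi * z) ≤ Real.sin (Real.pi * z) :=
        Real.mul_le_sin (by positivity) (by nlinarith [Real.pi_pos])
      have h3 : 2 / Real.pi * (Real.pi * z) = 2 * z := by
        field_simp
      rw [h3] at h2
      exact h2.trans (le_abs_self _)
    · rw [abs_of_nonpos h0] at hz1 ⊢
      have h2 : 2 / Real.pi * (Real.pi * (-z)) ≤ Real.sin (Real.pi * (-z)) :=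
        Real.mul_le_sin (mul_nonneg Real.pi_pos.le (by linarith)) (by nlinarith [Real.pi_pos])
      have h3 : 2 / Real.pi * (Real.pi * (-z)) = 2 * (-z) := by
        field_simp
      rw [h3, show Real.pi * (-z) = -(Real.pi * z) by ring, Real.sin_neg] at h2
      exact h2.trans (neg_le_abs _)
  linarith

/-- the exponential sum of the weights `f` on `[0, w)`. -/
noncomputable def F (f : ℕ → ℝ) (w : ℕ) (y : ℝ) : ℂ := ∑ t ∈ range w, (f t : ℂ) * e (t * y)

lemma norm_F_le {f : ℕ → ℝ} {w : ℕ} (hf : ∀ t, 0 ≤ f t) (y : ℝ) : ‖F f w y‖ ≤ ∑ t ∈ range w, f t := by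
  refine (norm_sum_le _ _).trans (Finset.sum_le_sum fun t _ => ?_)
  rw [norm_mul, norm_e, mul_one, Complex.norm_real, Real.norm_eq_abs, abs_of_nonneg (hf t)]

/-- geometric sums. -/
lemma norm_geom_le {y ρ : ℝ} (w : ℕ) (hρ : 0 < ρ) (h : ∀ m : ℤ, ρ ≤ |y - m|) :
    ‖∑ t ∈ range w, e (t * y)‖ ≤ 1 / (2 * ρ) := by
  have h4 := four_mul_le_norm_e_sub_one h
  have hne : e y ≠ 1 := by
    intro h0
    rw [h0, sub_self, norm_zero] at h4
    linarith
  have h1 : ∑ t ∈ range w, e (t * y) = (e y ^ w - 1) / (e y - 1) := by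
    rw [← geom_sum_eq hne]
    exact Finset.sum_congr rfl fun t _ => e_nsmul y t
  rw [h1, norm_div]
  have h2 : ‖e y ^ w - 1‖ ≤ 2 := by
    refine (norm_sub_le _ _).trans ?_
    rw [norm_pow, norm_e, one_pow, norm_one]
    norm_num
  have h5 : 0 < ‖e y - 1‖ := by linarith
  rw [div_le_div_iff₀ h5 (by positivity)]
  nlinarith

/-- orthogonality modulo `R`. -/
lemma sum_e_div {R : ℕ} (hR : 0 < R) (m : ℤ) :
    ∑ x ∈ range R, e (m * x / R) = if (R : ℤ) ∣ m then (R : ℂ) else 0 := by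
  have hR' : (R : ℝ) ≠ 0 := by positivity
  split_ifs with h
  · obtain ⟨d, rfl⟩ := h
    have h1 : ∀ x ∈ range R, e (((R : ℤ) * d : ℤ) * x / R) = 1 := by
      intro x _
      have h2 : ((((R : ℤ) * d : ℤ) : ℝ) * x / R) = ((d * x : ℤ) : ℝ) := by
        push_cast
        field_simp
      rw [h2, e_int]
    rw [Finset.sum_congr rfl h1]
    simp
  · have h1 : ∀ x ∈ range R, e (m * x / R) = e (m / R) ^ x := by
      intro x _
      rw [← e_nsmul]
      congr 1
      ring
    rw [Finset.sum_congr rfl h1]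
    have hne : e (m / R) ≠ 1 := by
      intro h0
      rw [e, Complex.exp_eq_one_iff] at h0
      obtain ⟨d, hd⟩ := h0
      apply h
      refine ⟨d, ?_⟩
      have h3 : ((m : ℝ) / R) = d := by
        have h4 : ((2 * Real.pi * (m / R) : ℝ) : ℂ) = ((d * (2 * Real.pi) : ℝ) : ℂ) := by
          have h5 := mul_right_cancel₀ (b := Complex.I) Complex.I_ne_zero
            (a := ((2 * Real.pi * (m / R) : ℝ) : ℂ)) (c := ((d * (2 * Real.pi) : ℝ) : ℂ)) (by
              rw [hd]; push_cast; ring)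
          exact h5
        have h6 := Complex.ofReal_injective h4
        have h7 : 2 * Real.pi ≠ 0 := by positivity
        have h8 : 2 * Real.pi * (m / R) = 2 * Real.pi * d := by linarith
        exact mul_left_cancel₀ h7 h8
      have h9 : (m : ℝ) = R * d := by
        field_simp at h3
        linarith
      exact_mod_cast h9
    rw [geom_sum_eq hne]
    have h2 : e (m / R) ^ R = 1 := by
      rw [← e_nsmul]
      have h3 : ((R : ℝ) * (m / R)) = (m : ℤ) := by
        field_simp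
      rw [h3, e_int]
    rw [h2, sub_self, zero_div]

/-- the Fourier identity modulo `R` for the number of solutions. -/
theorem fourier {ι : Type*} [Fintype ι] [DecidableEq ι] (a : ι → ℤ) (f : ℕ → ℝ) (w : ℕ) {R : ℕ} (hR : 0 < R)
    (s : ℤ) :
    ∑ x ∈ range R, e (-(s * x / R)) * ∏ i, F f w (a i * (x / R)) =
      R * ∑ τ ∈ Fintype.piFinset (fun _ : ι => range w),
        if (R : ℤ) ∣ ∑ i, a i * (τ i : ℤ) - s then ((∏ i, f (τ i) : ℝ) : ℂ) else 0 := by
  have h1 : ∀ x ∈ range R, e (-(s * x / R)) * ∏ i, F f w (a i * (x / R)) =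
      ∑ τ ∈ Fintype.piFinset (fun _ : ι => range w),
        ((∏ i, f (τ i) : ℝ) : ℂ) * e (((∑ i, a i * (τ i : ℤ) - s : ℤ) : ℝ) * x / R) := by
    intro x _
    unfold F
    rw [Finset.prod_univ_sum, Finset.mul_sum]
    refine Finset.sum_congr rfl fun τ _ => ?_
    rw [Finset.prod_mul_distrib, ← e_sum]
    have h2 : (((∑ i, a i * (τ i : ℤ) - s : ℤ) : ℝ) * x / R) =
        -(s * x / R) + ∑ i, (τ i : ℝ) * (a i * (x / R)) := by
      push_cast
      rw [sub_mul, sub_div, Finset.sum_mul, Finset.sum_div]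
      rw [sub_eq_add_neg, add_comm]
      congr 1
      exact Finset.sum_congr rfl fun i _ => by ring
    rw [h2, e_add]
    push_cast
    ring
  rw [Finset.sum_congr rfl h1, Finset.sum_comm, Finset.mul_sum]
  refine Finset.sum_congr rfl fun τ _ => ?_
  rw [← Finset.mul_sum, sum_e_div hR]
  split_ifs
  · ring
  · ring

end Pool.Agent.RadoE
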