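import Pool.Agent.RadoE.Basic

/-!
# Major arcs: comparison with the constant density
-/

namespace Pool.Agent.RadoE

open Finset

lemma sum_range_mul {M : Type*} [AddCommMonoid M] (g : ℕ → M) (m n : ℕ) :
    ∑ t ∈ range (m * n), g t = ∑ i ∈ range m, ∑ j ∈ range n, g (i * n + j) := by
  induction m with
  | zero => simp
  | succ m ih => rw [Nat.succ_mul, Finset.sum_range_add, ih, Finset.sum_range_succ]

/-- decomposition of an interval in progressions on subintervals. -/
lemma sum_blocks {M : Type*} [AddCommMonoid M] (g : ℕ → M) (K L v : ℕ) :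
    ∑ t ∈ range (K * (L * v)), g t =
      ∑ κ ∈ range K, ∑ r ∈ range L, ∑ t ∈ range v, g (κ * (L * v) + r + L * t) := by
  rw [sum_range_mul]
  refine Finset.sum_congr rfl fun κ _ => ?_
  rw [mul_comm L v, sum_range_mul, Finset.sum_comm]
  refine Finset.sum_congr rfl fun r _ => Finset.sum_congr rfl fun t _ => ?_
  congr 1
  ring

/-- comparison of the exponential sum with that of a constant weight, near a rational with denominator dividing
`L`. -/
theorem major {K L v : ℕ} (hK : 0 < K) (hL : 0 < L) (hv : 0 < v) {f : ℕ → ℝ} (hf0 : ∀ t, 0 ≤ f t) {β η : ℝ}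
    (hβ : 0 ≤ β) (hη : 0 ≤ η) (hsum : ∑ t ∈ range (K * (L * v)), f t = β * (K * (L * v) : ℕ))
    (hblock : ∀ κ < K, ∀ r < L, ∑ t ∈ range v, f (κ * (L * v) + r + L * t) ≤ (1 + η) * β * v)
    {θ γ K4 : ℝ} {b : ℤ} (hθ : L * θ = b) (hγ : |γ| * (K * (L * v) : ℕ) ≤ K4) :
    ‖F f (K * (L * v)) (θ + γ) - β * F (fun _ => 1) (K * (L * v)) (θ + γ)‖ ≤
      2 * η * (β * (K * (L * v) : ℕ)) + 4 * Real.pi * K4 / K * (β * (K * (L * v) : ℕ)) := by
  set w := K * (L * v) with hw
  have hK' : (0 : ℝ) < K := by exact_mod_cast hK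
  -- the difference as a sum
  have h1 : F f w (θ + γ) - β * F (fun _ => 1) w (θ + γ) =
      ∑ t ∈ range w, ((f t - β : ℝ) : ℂ) * e (t * (θ + γ)) := by
    unfold F
    rw [Finset.mul_sum, ← Finset.sum_sub_distrib]
    refine Finset.sum_congr rfl fun t _ => ?_
    push_cast
    ring
  rw [h1, hw, sum_blocks]
  -- one block
  set s : ℕ → ℕ → ℝ := fun κ r => ∑ t ∈ range v, (f (κ * (L * v) + r + L * t) - β) with hs
  set A : ℕ → ℕ → ℝ := fun κ r => ∑ t ∈ range v, |f (κ * (L * v) + r + L * t) - β| with hA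
  set q : ℝ := 2 * Real.pi * (K4 / K) with hq
  have hblk : ∀ κ r, ‖∑ t ∈ range v, ((f (κ * (L * v) + r + L * t) - β : ℝ) : ℂ) *
      e ((κ * (L * v) + r + L * t : ℕ) * (θ + γ))‖ ≤ |s κ r| + A κ r * q := by
    intro κ r
    have e1 : ∀ t : ℕ, e ((κ * (L * v) + r + L * t : ℕ) * (θ + γ)) =
        e ((κ * (L * v) + r : ℕ) * (θ + γ)) * e (L * t * γ) := by
      intro t
      have : ((κ * (L * v) + r + L * t : ℕ) : ℝ) * (θ + γ) =
          ((κ * (L * v) + r : ℕ) * (θ + γ) + L * t * γ) + ((t * b : ℤ) : ℝ) := by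
        push_cast
        rw [← hθ]
        ring
      rw [this, e_add_int, e_add]
    have e2 : ∑ t ∈ range v, ((f (κ * (L * v) + r + L * t) - β : ℝ) : ℂ) *
        e ((κ * (L * v) + r + L * t : ℕ) * (θ + γ)) =
        e ((κ * (L * v) + r : ℕ) * (θ + γ)) * (((s κ r : ℝ) : ℂ) +
          ∑ t ∈ range v, ((f (κ * (L * v) + r + L * t) - β : ℝ) : ℂ) * (e (L * t * γ) - 1)) := by
      simp only [hs]
      rw [Complex.ofReal_sum, ← Finset.sum_add_distrib, Finset.mul_sum]
      refine Finset.sum_congr rfl fun t _ => ?_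
      rw [e1]
      ring
    rw [e2, norm_mul, norm_e, one_mul]
    refine (norm_add_le _ _).trans (add_le_add ?_ ?_)
    · rw [Complex.norm_real, Real.norm_eq_abs]
    · refine (norm_sum_le _ _).trans ?_
      simp only [hA]
      rw [Finset.sum_mul]
      refine Finset.sum_le_sum fun t ht => ?_
      rw [norm_mul, Complex.norm_real, Real.norm_eq_abs]
      refine mul_le_mul_of_nonneg_left ?_ (abs_nonneg _)
      refine (norm_e_sub_one_le _).trans ?_
      rw [hq]
      refine mul_le_mul_of_nonneg_left ?_ (by positivity)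
      rw [abs_mul, abs_of_nonneg (by positivity), le_div_iff₀ hK']
      rw [Finset.mem_range] at ht
      have ht' : (t : ℝ) ≤ v := by exact_mod_cast ht.le
      calc (L : ℝ) * t * |γ| * K ≤ (L : ℝ) * v * |γ| * K := by gcongr
        _ = |γ| * (K * (L * v) : ℕ) := by push_cast; ring
        _ ≤ K4 := hγ
  have h2 : ‖∑ κ ∈ range K, ∑ r ∈ range L, ∑ t ∈ range v, ((f (κ * (L * v) + r + L * t) - β : ℝ) : ℂ) *
      e ((κ * (L * v) + r + L * t : ℕ) * (θ + γ))‖ ≤
      ∑ κ ∈ range K, ∑ r ∈ range L, (|s κ r| + A κ r * q) := by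
    refine (norm_sum_le _ _).trans (Finset.sum_le_sum fun κ _ => ?_)
    exact (norm_sum_le _ _).trans (Finset.sum_le_sum fun r _ => hblk κ r)
  refine h2.trans ?_
  -- the sums of the blocks
  have hs0 : ∑ κ ∈ range K, ∑ r ∈ range L, s κ r = 0 := by
    have := sum_blocks (fun t => f t - β) K L v
    simp only [hs]
    rw [← this, Finset.sum_sub_distrib, hsum, Finset.sum_const, card_range, nsmul_eq_mul]
    ring
  have hsle : ∀ κ ∈ range K, ∀ r ∈ range L, s κ r ≤ η * β * v := by
    intro κ hκ r hr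
    rw [Finset.mem_range] at hκ hr
    simp only [hs]
    rw [Finset.sum_sub_distrib, Finset.sum_const, card_range, nsmul_eq_mul]
    have := hblock κ hκ r hr
    linarith
  have hsabs : ∑ κ ∈ range K, ∑ r ∈ range L, |s κ r| ≤ 2 * η * (β * (K * (L * v) : ℕ)) := by
    have e3 : ∀ κ ∈ range K, ∀ r ∈ range L, |s κ r| ≤ 2 * (η * β * v) - s κ r := by
      intro κ hκ r hr
      have h3 := hsle κ hκ r hr
      have h4 : 0 ≤ η * β * v := by positivity
      rw [abs_le]
      constructor <;> linarith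
    refine (Finset.sum_le_sum fun κ hκ => Finset.sum_le_sum fun r hr => e3 κ hκ r hr).trans ?_
    have e4 : ∑ κ ∈ range K, ∑ r ∈ range L, (2 * (η * β * v) - s κ r) =
        K * (L * (2 * (η * β * v))) - ∑ κ ∈ range K, ∑ r ∈ range L, s κ r := by
      simp only [Finset.sum_sub_distrib, Finset.sum_const, card_range, nsmul_eq_mul]
    rw [e4, hs0]
    push_cast
    apply le_of_eq
    ring
  have hAsum : ∑ κ ∈ range K, ∑ r ∈ range L, A κ r ≤ 2 * (β * (K * (L * v) : ℕ)) := by
    have := sum_blocks (fun t => |f t - β|) K L v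
    simp only [hA]
    rw [← this]
    calc ∑ t ∈ range (K * (L * v)), |f t - β| ≤ ∑ t ∈ range (K * (L * v)), (f t + β) := by
          refine Finset.sum_le_sum fun t _ => ?_
          have := hf0 t
          rw [abs_le]
          constructor <;> linarith
      _ = _ := by
          rw [Finset.sum_add_distrib, hsum, Finset.sum_const, card_range, nsmul_eq_mul]
          ring
  have hK4 : 0 ≤ K4 := le_trans (by positivity) hγ
  calc ∑ κ ∈ range K, ∑ r ∈ range L, (|s κ r| + A κ r * q)
      = ∑ κ ∈ range K, ∑ r ∈ range L, |s κ r| + (∑ κ ∈ range K, ∑ r ∈ range L, A κ r) * q := by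
        rw [Finset.sum_mul, ← Finset.sum_add_distrib]
        refine Finset.sum_congr rfl fun κ _ => ?_
        rw [Finset.sum_mul, ← Finset.sum_add_distrib]
    _ ≤ 2 * η * (β * (K * (L * v) : ℕ)) + 2 * (β * (K * (L * v) : ℕ)) * q :=
        add_le_add hsabs (mul_le_mul_of_nonneg_right hAsum (by positivity))
    _ = _ := by
        rw [hq]
        ring

/-- telescoping of a difference of products. -/
lemma norm_prod_sub_prod_le {ι : Type*} [DecidableEq ι] (s : Finset ι) (u v : ι → ℂ) {C E : ℝ} (hC : 0 ≤ C)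
    (hu : ∀ i ∈ s, ‖u i‖ ≤ C) (hv : ∀ i ∈ s, ‖v i‖ ≤ C) (huv : ∀ i ∈ s, ‖u i - v i‖ ≤ E * C) :
    ‖∏ i ∈ s, u i - ∏ i ∈ s, v i‖ ≤ s.card * E * C ^ s.card := by
  induction s using Finset.induction_on with
  | empty => simp
  | insert a s ha ih =>
    have ih' := ih (fun i hi => hu i (Finset.mem_insert_of_mem hi)) (fun i hi => hv i (Finset.mem_insert_of_mem hi))
      (fun i hi => huv i (Finset.mem_insert_of_mem hi))
    rw [Finset.prod_insert ha, Finset.prod_insert ha, Finset.card_insert_of_notMem ha]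
    have h1 : u a * ∏ i ∈ s, u i - v a * ∏ i ∈ s, v i =
        u a * (∏ i ∈ s, u i - ∏ i ∈ s, v i) + (u a - v a) * ∏ i ∈ s, v i := by ring
    rw [h1]
    have h2 : ‖∏ i ∈ s, v i‖ ≤ C ^ s.card := by
      rw [norm_prod]
      calc ∏ i ∈ s, ‖v i‖ ≤ ∏ _i ∈ s, C :=
            Finset.prod_le_prod (fun i _ => norm_nonneg _) fun i hi => hv i (Finset.mem_insert_of_mem hi)
        _ = _ := by rw [Finset.prod_const]
    have h3 := hu a (Finset.mem_insert_self _ _)
    have h4 := huv a (Finset.mem_insert_self _ _)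
    calc _ ≤ ‖u a‖ * ‖∏ i ∈ s, u i - ∏ i ∈ s, v i‖ + ‖u a - v a‖ * ‖∏ i ∈ s, v i‖ := by
          refine (norm_add_le _ _).trans ?_
          rw [norm_mul, norm_mul]
      _ ≤ C * (s.card * E * C ^ s.card) + (E * C) * C ^ s.card := by
          refine add_le_add (mul_le_mul h3 ih' (norm_nonneg _) hC) ?_
          exact mul_le_mul h4 h2 (norm_nonneg _) ((norm_nonneg _).trans h4)
      _ = _ := by
          push_cast
          ring

end Pool.Agent.RadoE
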