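import Pool.Agent.RadoE.Basic

/-!
# Minor arcs: a pointwise inequality and a fourth moment
-/

namespace Pool.Agent.RadoE

open Finset

/-- a product with many small factors is bounded by a sum of products of squares. -/
lemma prod_le_sum_sq {ι : Type*} [Fintype ι] [DecidableEq ι] {u : ι → ℝ} (h0 : ∀ i, 0 ≤ u i) (h1 : ∀ i, u i ≤ 1)
    {δ : ℝ} (hδ0 : 0 ≤ δ) (hδ1 : δ ≤ 1) {J : Finset ι} (hJ : ∀ i ∈ J, u i ≤ δ) {d : ℕ} (hd : d + 4 ≤ J.card) :
    ∏ i, u i ≤ δ ^ d * ∑ p ∈ (Finset.univ : Finset ι).offDiag, u p.1 ^ 2 * u p.2 ^ 2 := by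
  obtain ⟨j1, hj1⟩ : J.Nonempty := Finset.card_pos.mp (by omega)
  have c1 := Finset.card_erase_of_mem hj1
  obtain ⟨j2, hj2⟩ : (J.erase j1).Nonempty := Finset.card_pos.mp (by omega)
  have c2 := Finset.card_erase_of_mem hj2
  obtain ⟨j3, hj3⟩ : ((J.erase j1).erase j2).Nonempty := Finset.card_pos.mp (by omega)
  have c3 := Finset.card_erase_of_mem hj3
  obtain ⟨j4, hj4⟩ : (((J.erase j1).erase j2).erase j3).Nonempty := Finset.card_pos.mp (by omega)
  have c4 := Finset.card_erase_of_mem hj4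
  set J4 := (((J.erase j1).erase j2).erase j3).erase j4 with hJ4
  have hJ4J : ∀ i ∈ J4, i ∈ J := fun i hi =>
    Finset.mem_of_mem_erase (Finset.mem_of_mem_erase (Finset.mem_of_mem_erase (Finset.mem_of_mem_erase hi)))
  have e1 : ∏ i ∈ J, u i = u j1 * (u j2 * (u j3 * (u j4 * ∏ i ∈ J4, u i))) := by
    rw [hJ4, Finset.mul_prod_erase _ _ hj4, Finset.mul_prod_erase _ _ hj3, Finset.mul_prod_erase _ _ hj2,
      Finset.mul_prod_erase _ _ hj1]
  have e2 : ∏ i, u i ≤ ∏ i ∈ J, u i := by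
    rw [← Finset.prod_sdiff (Finset.subset_univ J)]
    have : ∏ i ∈ Finset.univ \ J, u i ≤ 1 := Finset.prod_le_one (fun i _ => h0 i) fun i _ => h1 i
    calc _ ≤ 1 * ∏ i ∈ J, u i := mul_le_mul_of_nonneg_right this (Finset.prod_nonneg fun i _ => h0 i)
      _ = _ := one_mul _
  have e3 : ∏ i ∈ J4, u i ≤ δ ^ d := by
    calc ∏ i ∈ J4, u i ≤ ∏ _i ∈ J4, δ := Finset.prod_le_prod (fun i _ => h0 i) fun i hi => hJ i (hJ4J i hi)
      _ = δ ^ J4.card := by rw [Finset.prod_const]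
      _ ≤ δ ^ d := pow_le_pow_of_le_one hδ0 hδ1 (by omega)
  have n12 : (j1, j2) ∈ (Finset.univ : Finset ι).offDiag := by
    rw [Finset.mem_offDiag]
    exact ⟨Finset.mem_univ _, Finset.mem_univ _, fun h => (Finset.ne_of_mem_erase hj2) h.symm⟩
  have n34 : (j3, j4) ∈ (Finset.univ : Finset ι).offDiag := by
    rw [Finset.mem_offDiag]
    exact ⟨Finset.mem_univ _, Finset.mem_univ _, fun h => (Finset.ne_of_mem_erase hj4) h.symm⟩
  set S := ∑ p ∈ (Finset.univ : Finset ι).offDiag, u p.1 ^ 2 * u p.2 ^ 2 with hS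
  have s12 : u j1 ^ 2 * u j2 ^ 2 ≤ S :=
    Finset.single_le_sum (f := fun p : ι × ι => u p.1 ^ 2 * u p.2 ^ 2) (fun p _ => by positivity) n12
  have s34 : u j3 ^ 2 * u j4 ^ 2 ≤ S :=
    Finset.single_le_sum (f := fun p : ι × ι => u p.1 ^ 2 * u p.2 ^ 2) (fun p _ => by positivity) n34
  have e4 : u j1 * u j2 * (u j3 * u j4) ≤ S := by
    nlinarith [sq_nonneg (u j1 * u j2 - u j3 * u j4)]
  have e5 : 0 ≤ u j1 * u j2 * (u j3 * u j4) :=
    mul_nonneg (mul_nonneg (h0 _) (h0 _)) (mul_nonneg (h0 _) (h0 _))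
  calc ∏ i, u i ≤ u j1 * (u j2 * (u j3 * (u j4 * ∏ i ∈ J4, u i))) := e1 ▸ e2
    _ = (u j1 * u j2 * (u j3 * u j4)) * ∏ i ∈ J4, u i := by ring
    _ ≤ (u j1 * u j2 * (u j3 * u j4)) * δ ^ d := mul_le_mul_of_nonneg_left e3 e5
    _ ≤ S * δ ^ d := mul_le_mul_of_nonneg_right e4 (pow_nonneg hδ0 _)
    _ = _ := mul_comm _ _

/-- Parseval modulo `R`. -/
lemma parseval {ι : Type*} (P : Finset ι) (c : ι → ℝ) (m : ι → ℤ) {R : ℕ} (hR : 0 < R) :
    ∑ x ∈ range R, ‖∑ p ∈ P, (c p : ℂ) * e (m p * (x / R))‖ ^ 2 =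
      R * ∑ p ∈ P, c p * ∑ q ∈ P, if (R : ℤ) ∣ m p - m q then c q else 0 := by
  have h : ∀ x ∈ range R, (((‖∑ p ∈ P, (c p : ℂ) * e (m p * (x / R))‖ ^ 2 : ℝ)) : ℂ) =
      ∑ p ∈ P, ∑ q ∈ P, (c p : ℂ) * (c q) * e (((m p - m q : ℤ) : ℝ) * x / R) := by
    intro x _
    push_cast
    rw [← Complex.mul_conj', map_sum, Finset.sum_mul_sum]
    refine Finset.sum_congr rfl fun p _ => Finset.sum_congr rfl fun q _ => ?_
    rw [map_mul, Complex.conj_ofReal, ← e_neg]
    have : (((m p : ℝ) - (m q : ℝ)) * x / R) = m p * (x / R) + -(m q * (x / R)) := by ring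
    rw [this, e_add]
    ring
  have h2 : (((∑ x ∈ range R, ‖∑ p ∈ P, (c p : ℂ) * e (m p * (x / R))‖ ^ 2 : ℝ)) : ℂ) =
      ((R * ∑ p ∈ P, c p * ∑ q ∈ P, (if (R : ℤ) ∣ m p - m q then c q else 0) : ℝ) : ℂ) := by
    rw [Complex.ofReal_sum, Finset.sum_congr rfl h, Finset.sum_comm]
    push_cast
    rw [Finset.mul_sum]
    refine Finset.sum_congr rfl fun p _ => ?_
    rw [Finset.sum_comm, Finset.mul_sum, Finset.mul_sum]
    refine Finset.sum_congr rfl fun q _ => ?_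
    rw [← Finset.mul_sum]
    have := sum_e_div hR (m p - m q)
    push_cast at this ⊢
    rw [this]
    split_ifs
    · ring
    · simp
  exact_mod_cast h2

lemma card_rep_le {a b w : ℕ} (hb : 0 < b) (hab : Nat.Coprime a b) (M : ℕ) :
    (((range w) ×ˢ (range w)).filter (fun q : ℕ × ℕ => a * q.1 + b * q.2 = M)).card ≤ w / b + 1 := by
  classical
  refine le_trans (Finset.card_le_card_of_injOn (t := range (w / b + 1)) (fun q => q.1 / b) ?_ ?_) (by simp)
  · intro q hq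
    simp only [Finset.coe_filter, Finset.mem_product, Finset.mem_range, Set.mem_ofPred_eq] at hq
    simp only [Finset.coe_range, Set.mem_Iio]
    have : q.1 / b ≤ w / b := Nat.div_le_div_right hq.1.1.le
    omega
  · intro q hq q' hq' heq
    simp only [Finset.coe_filter, Finset.mem_product, Finset.mem_range, Set.mem_ofPred_eq] at hq hq'
    simp only at heq
    have hmod : q.1 ≡ q'.1 [MOD b] := by
      have h1 : a * q.1 ≡ a * q'.1 [MOD b] := by
        have h2 : a * q.1 + b * q.2 ≡ a * q'.1 + b * q'.2 [MOD b] := by rw [hq.2, hq'.2]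
        have h3 : a * q.1 + b * q.2 ≡ a * q.1 [MOD b] := by
          simp [Nat.ModEq]
        have h4 : a * q'.1 + b * q'.2 ≡ a * q'.1 [MOD b] := by
          simp [Nat.ModEq]
        exact h3.symm.trans (h2.trans h4)
      exact Nat.ModEq.cancel_left_of_coprime (by rwa [Nat.coprime_comm] at hab) h1
    have h1 : q.1 = q'.1 := by
      have e1 := Nat.div_add_mod q.1 b
      have e2 := Nat.div_add_mod q'.1 b
      rw [← e1, ← e2, heq, hmod]
    have h2 : q.2 = q'.2 := by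
      have h3 := hq.2
      rw [← hq'.2, h1] at h3
      have h4 := Nat.add_left_cancel h3
      exact Nat.eq_of_mul_eq_mul_left hb h4
    exact Prod.ext h1 h2

/-- the fourth moment. -/
lemma fourth_moment {a b w : ℕ} (hb : 0 < b) (hab : Nat.Coprime a b) {f : ℕ → ℝ} (hf0 : ∀ t, 0 ≤ f t)
    (hf1 : ∀ t, f t ≤ 1) {R : ℕ} (hR : 0 < R) (hRw : (a + b) * w < R) {B : ℝ} (hB : ∑ t ∈ range w, f t = B) :
    ∑ x ∈ range R, ‖F f w (a * (x / R))‖ ^ 2 * ‖F f w (b * (x / R))‖ ^ 2 ≤ R * (B ^ 2 * (w / b + 1)) := by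
  have h1 : ∀ x ∈ range R, ‖F f w (a * (x / R))‖ ^ 2 * ‖F f w (b * (x / R))‖ ^ 2 =
      ‖∑ p ∈ (range w) ×ˢ (range w), ((f p.1 * f p.2 : ℝ) : ℂ) * e (((a * p.1 + b * p.2 : ℤ) : ℝ) * (x / R))‖ ^ 2 := by
    intro x _
    rw [← mul_pow, ← norm_mul]
    congr 2
    unfold F
    rw [Finset.sum_mul_sum, Finset.sum_product]
    refine Finset.sum_congr rfl fun p _ => Finset.sum_congr rfl fun q _ => ?_
    have : (((a * p + b * q : ℤ) : ℝ) * (x / R)) = (p : ℝ) * (a * (x / R)) + (q : ℝ) * (b * (x / R)) := by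
      push_cast
      ring
    rw [this, e_add]
    push_cast
    ring
  rw [Finset.sum_congr rfl h1, parseval _ (fun p : ℕ × ℕ => f p.1 * f p.2) (fun p => (a * p.1 + b * p.2 : ℤ)) hR]
  refine mul_le_mul_of_nonneg_left ?_ (by positivity)
  have hc0 : ∀ p : ℕ × ℕ, 0 ≤ f p.1 * f p.2 := fun p => mul_nonneg (hf0 _) (hf0 _)
  have hc1 : ∀ p : ℕ × ℕ, f p.1 * f p.2 ≤ 1 := fun p => mul_le_one₀ (hf1 _) (hf0 _) (hf1 _)
  have h2 : ∀ p ∈ (range w) ×ˢ (range w), (f p.1 * f p.2) * ∑ q ∈ (range w) ×ˢ (range w),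
      (if (R : ℤ) ∣ (a * p.1 + b * p.2 : ℤ) - (a * q.1 + b * q.2 : ℤ) then f q.1 * f q.2 else 0) ≤
      (f p.1 * f p.2) * (w / b + 1) := by
    intro p hp
    refine mul_le_mul_of_nonneg_left ?_ (hc0 p)
    rw [Finset.mem_product, Finset.mem_range, Finset.mem_range] at hp
    have h3 : ∑ q ∈ (range w) ×ˢ (range w),
        (if (R : ℤ) ∣ (a * p.1 + b * p.2 : ℤ) - (a * q.1 + b * q.2 : ℤ) then f q.1 * f q.2 else 0) ≤
        ∑ q ∈ (range w) ×ˢ (range w), (if a * q.1 + b * q.2 = a * p.1 + b * p.2 then (1 : ℝ) else 0) := by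
      refine Finset.sum_le_sum fun q hq => ?_
      rw [Finset.mem_product, Finset.mem_range, Finset.mem_range] at hq
      split_ifs with g1 g2 g2
      · exact hc1 q
      · exfalso
        apply g2
        have k1 : a * q.1 + b * q.2 ≤ (a + b) * w := by nlinarith [hq.1.le, hq.2.le]
        have k2 : a * p.1 + b * p.2 ≤ (a + b) * w := by nlinarith [hp.1.le, hp.2.le]
        have k3 : |(a * p.1 + b * p.2 : ℤ) - (a * q.1 + b * q.2 : ℤ)| < (R : ℤ) := by
          rw [abs_lt]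
          constructor
          · have : ((a * q.1 + b * q.2 : ℕ) : ℤ) < R := by exact_mod_cast lt_of_le_of_lt k1 hRw
            push_cast at this
            have h5 : (0 : ℤ) ≤ a * p.1 + b * p.2 := by positivity
            linarith
          · have : ((a * p.1 + b * p.2 : ℕ) : ℤ) < R := by exact_mod_cast lt_of_le_of_lt k2 hRw
            push_cast at this
            have h5 : (0 : ℤ) ≤ a * q.1 + b * q.2 := by positivity
            linarith
        have k4 := Int.eq_zero_of_abs_lt_dvd g1 k3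
        have k5 : (a * q.1 + b * q.2 : ℤ) = (a * p.1 + b * p.2 : ℤ) := by linarith
        exact_mod_cast k5
      · exact zero_le_one
      · exact le_rfl
    refine h3.trans ?_
    rw [← Finset.sum_filter, Finset.sum_const, nsmul_eq_mul, mul_one]
    have h4 := card_rep_le (w := w) hb hab (a * p.1 + b * p.2)
    have h5 : ((w / b + 1 : ℕ) : ℝ) ≤ w / b + 1 := by
      push_cast
      have := Nat.cast_div_le (α := ℝ) (m := w) (n := b)
      linarith
    exact le_trans (by exact_mod_cast h4) h5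
  refine (Finset.sum_le_sum h2).trans ?_
  rw [← Finset.sum_mul, Finset.sum_product]
  have h6 : ∑ x ∈ range w, ∑ y ∈ range w, f (x, y).1 * f (x, y).2 = B ^ 2 := by
    rw [sq, ← hB, Finset.sum_mul_sum]
  rw [h6]

/-- the sum over the minor arcs. -/
theorem minor_sum {n : ℕ} {a : Fin n → ℕ} {N w R : ℕ} (hN : 0 < N) (ha : ∀ i, N ≤ a i)
    (hab : ∀ i j, i ≠ j → Nat.Coprime (a i) (a j)) (hRw : ∀ i j, (a i + a j) * w < R)
    {f : ℕ → ℝ} (hf0 : ∀ t, 0 ≤ f t) (hf1 : ∀ t, f t ≤ 1) {B : ℝ} (hB0 : 0 < B) (hB : ∑ t ∈ range w, f t = B)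
    {X : Finset ℕ} (hX : X ⊆ range R) {δ : ℝ} (hδ0 : 0 ≤ δ) (hδ1 : δ ≤ 1) {m d : ℕ} (hmd : m + d + 4 ≤ n)
    (hm : ∀ x ∈ X, ((Finset.univ : Finset (Fin n)).filter
      (fun i => δ * B ≤ ‖F f w (a i * (x / R))‖)).card ≤ m) :
    ∑ x ∈ X, ∏ i, ‖F f w (a i * (x / R))‖ ≤ B ^ n * (δ ^ d * (n ^ 2 * (R * ((w / N + 1) / B ^ 2)))) := by
  have hn : 0 < n := by omega
  have hR : 0 < R := lt_of_le_of_lt (Nat.zero_le _) (hRw ⟨0, hn⟩ ⟨0, hn⟩)
  have h1 : ∀ x ∈ X, ∏ i, ‖F f w (a i * (x / R))‖ ≤ B ^ n * (δ ^ d *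
      ∑ p ∈ (Finset.univ : Finset (Fin n)).offDiag,
        (‖F f w (a p.1 * (x / R))‖ / B) ^ 2 * (‖F f w (a p.2 * (x / R))‖ / B) ^ 2) := by
    intro x hx
    have g1 := prod_le_sum_sq (u := fun i => ‖F f w (a i * (x / R))‖ / B) (fun i => by positivity)
      (fun i => by rw [div_le_one hB0]; exact hB ▸ norm_F_le hf0 _) hδ0 hδ1
      (J := (Finset.univ : Finset (Fin n)).filter (fun i => ¬ δ * B ≤ ‖F f w (a i * (x / R))‖))
      (fun i hi => by
        rw [Finset.mem_filter, not_le] at hi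
        rw [div_le_iff₀ hB0]
        exact hi.2.le) (d := d) (by
        have h2 := Finset.card_filter_add_card_filter_not (s := (Finset.univ : Finset (Fin n)))
          (fun i => δ * B ≤ ‖F f w (a i * (x / R))‖)
        rw [Finset.card_univ, Fintype.card_fin] at h2
        have h3 := hm x hx
        omega)
    rw [Finset.prod_div_distrib, Finset.prod_const, Finset.card_univ, Fintype.card_fin,
      div_le_iff₀ (by positivity)] at g1
    linarith
  refine (Finset.sum_le_sum h1).trans ?_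
  rw [← Finset.mul_sum, ← Finset.mul_sum]
  refine mul_le_mul_of_nonneg_left (mul_le_mul_of_nonneg_left ?_ (pow_nonneg hδ0 _)) (by positivity)
  rw [Finset.sum_comm]
  have h2 : ∀ p ∈ (Finset.univ : Finset (Fin n)).offDiag,
      ∑ x ∈ X, (‖F f w (a p.1 * (x / R))‖ / B) ^ 2 * (‖F f w (a p.2 * (x / R))‖ / B) ^ 2 ≤
        R * ((w / N + 1) / B ^ 2) := by
    intro p hp
    rw [Finset.mem_offDiag] at hp
    have hb : 0 < a p.2 := lt_of_lt_of_le hN (ha _)
    have g1 := fourth_moment hb (hab _ _ hp.2.2) hf0 hf1 hR (hRw p.1 p.2) hB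
    have g2 : ∑ x ∈ X, ‖F f w (a p.1 * (x / R))‖ ^ 2 * ‖F f w (a p.2 * (x / R))‖ ^ 2 ≤
        R * (B ^ 2 * (w / (a p.2 : ℕ) + 1)) :=
      le_trans (Finset.sum_le_sum_of_subset_of_nonneg hX fun _ _ _ => by positivity) g1
    have g3 : ((w : ℝ) / (a p.2 : ℕ) + 1) ≤ w / N + 1 := by
      have : (w : ℝ) / (a p.2 : ℕ) ≤ w / N :=
        div_le_div_of_nonneg_left (by positivity) (by exact_mod_cast hN) (by exact_mod_cast ha _)
      linarith
    calc ∑ x ∈ X, (‖F f w (a p.1 * (x / R))‖ / B) ^ 2 * (‖F f w (a p.2 * (x / R))‖ / B) ^ 2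
        = (∑ x ∈ X, ‖F f w (a p.1 * (x / R))‖ ^ 2 * ‖F f w (a p.2 * (x / R))‖ ^ 2) / B ^ 4 := by
          rw [Finset.sum_div]
          refine Finset.sum_congr rfl fun x _ => ?_
          field_simp
      _ ≤ (R * (B ^ 2 * (w / (a p.2 : ℕ) + 1))) / B ^ 4 := div_le_div_of_nonneg_right g2 (by positivity)
      _ ≤ (R * (B ^ 2 * (w / N + 1))) / B ^ 4 := by
          refine div_le_div_of_nonneg_right ?_ (by positivity)
          exact mul_le_mul_of_nonneg_left (mul_le_mul_of_nonneg_left g3 (by positivity)) (by positivity)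
      _ = _ := by field_simp
  refine (Finset.sum_le_sum h2).trans ?_
  rw [Finset.sum_const, nsmul_eq_mul]
  refine mul_le_mul_of_nonneg_right ?_ (by positivity)
  have h3 : (Finset.univ : Finset (Fin n)).offDiag.card ≤ n ^ 2 := by
    rw [Finset.offDiag_card, Finset.card_univ, Fintype.card_fin, sq]
    omega
  exact_mod_cast h3

end Pool.Agent.RadoE
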