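import Pool.Agent.RadoE.Arcs
import Pool.Agent.RadoE.Minor
import Pool.Agent.RadoE.Major

/-!
# The circle method on a cell
-/

namespace Pool.Agent.RadoE

open Finset

lemma prod_coef {n : ℕ} (a : Fin n → ℕ) (S : ℕ) (g : ℤ → ℝ) :
    ∏ i, g (coef a S i) = (∏ i : Fin n, g (a i)) * g ((∑ i, a i : ℕ) : ℤ) *
      g (2 * ((∑ i, a i : ℕ) : ℤ) + 1) * g (-(4 * ((∑ i, a i : ℕ) : ℤ) + 1 - S)) := by
  unfold coef
  rw [Fin.prod_univ_castSucc, Fin.prod_univ_castSucc, Fin.prod_univ_castSucc]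
  simp only [Fin.snoc_castSucc, Fin.snoc_last]

lemma abs_coef_le {n : ℕ} (a : Fin n → ℕ) {S : ℕ} (hS : S ≤ ∑ i, a i) (i : Fin (n + 3)) :
    |coef a S i| ≤ 4 * ((∑ i, a i : ℕ) : ℤ) + 1 := by
  have h0 : (0 : ℤ) ≤ ((∑ i, a i : ℕ) : ℤ) := by positivity
  have h1 : (S : ℤ) ≤ ((∑ i, a i : ℕ) : ℤ) := by exact_mod_cast hS
  have h2 : (0 : ℤ) ≤ S := by positivity
  unfold coef
  refine Fin.lastCases ?_ (fun i => ?_) i
  · rw [Fin.snoc_last, abs_neg, abs_le]
    constructor <;> linarith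
  · rw [Fin.snoc_castSucc]
    refine Fin.lastCases ?_ (fun i => ?_) i
    · rw [Fin.snoc_last, abs_le]
      constructor <;> linarith
    · rw [Fin.snoc_castSucc]
      refine Fin.lastCases ?_ (fun i => ?_) i
      · rw [Fin.snoc_last, abs_le]
        constructor <;> linarith
      · rw [Fin.snoc_castSucc, Nat.abs_cast]
        have : (a i : ℤ) ≤ ((∑ i, a i : ℕ) : ℤ) := by
          exact_mod_cast Finset.single_le_sum (f := a) (fun _ _ => Nat.zero_le _) (Finset.mem_univ i)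
        linarith

/-- the weighted number of solutions. -/
noncomputable def Sol {n : ℕ} (a : Fin n → ℕ) (S w : ℕ) (s : ℤ) (f : ℕ → ℝ) : ℝ :=
  ∑ τ ∈ (Fintype.piFinset (fun _ : Fin (n + 3) => range w)).filter
    (fun τ => ∑ i, coef a S i * (τ i : ℤ) = s), ∏ i, f (τ i)

lemma fourier_sol {n : ℕ} (a : Fin n → ℕ) {S N w : ℕ} {s : ℤ} (hw : 0 < w) (hN : N ≤ ∑ i, a i)
    (hS : S ≤ ∑ i, a i) (hs : |s| ≤ N * w) (f : ℕ → ℝ) {R : ℕ} (hR : R = (20 * (∑ i, a i) + 20) * w) :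
    ∑ x ∈ range R, e (-(s * x / R)) * ∏ i, F f w (coef a S i * (x / R)) = ((R * Sol a S w s f : ℝ) : ℂ) := by
  have hR0 : 0 < R := by rw [hR]; positivity
  rw [fourier (coef a S) f w hR0 s]
  push_cast
  congr 1
  unfold Sol
  rw [Finset.sum_filter]
  push_cast
  refine Finset.sum_congr rfl fun τ hτ => ?_
  rw [Fintype.mem_piFinset] at hτ
  set Z := ∑ i, a i with hZ
  have hτ' : ∀ i, (τ i : ℤ) ≤ w ∧ (0 : ℤ) ≤ τ i := fun i => by
    have := Finset.mem_range.mp (hτ i)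
    exact ⟨by exact_mod_cast this.le, by positivity⟩
  have hwZ : (0 : ℤ) < w := by exact_mod_cast hw
  have hZ0 : (0 : ℤ) ≤ Z := by positivity
  have hSZ : (S : ℤ) ≤ Z := by exact_mod_cast hS
  have hNZ : (N : ℤ) ≤ Z := by exact_mod_cast hN
  have hS0 : (0 : ℤ) ≤ S := by positivity
  have hlt : |∑ i, coef a S i * (τ i : ℤ) - s| < (R : ℤ) := by
    rw [sum_coef]
    have h1 : 0 ≤ ∑ i : Fin n, (a i : ℤ) * (τ i.castSucc.castSucc.castSucc : ℤ) :=
      Finset.sum_nonneg fun i _ => mul_nonneg (by positivity) (hτ' _).2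
    have h2 : ∑ i : Fin n, (a i : ℤ) * (τ i.castSucc.castSucc.castSucc : ℤ) ≤ Z * w := by
      rw [hZ]
      push_cast
      rw [Finset.sum_mul]
      exact Finset.sum_le_sum fun i _ => mul_le_mul_of_nonneg_left (hτ' _).1 (by positivity)
    rw [← hZ]
    have h3 : 0 ≤ (Z : ℤ) * (τ (Fin.last n).castSucc.castSucc : ℤ) := mul_nonneg hZ0 (hτ' _).2
    have h4 : (Z : ℤ) * (τ (Fin.last n).castSucc.castSucc : ℤ) ≤ Z * w := mul_le_mul_of_nonneg_left (hτ' _).1 hZ0
    have h5 : 0 ≤ (2 * (Z : ℤ) + 1) * (τ (Fin.last (n + 1)).castSucc : ℤ) := mul_nonneg (by linarith) (hτ' _).2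
    have h6 : (2 * (Z : ℤ) + 1) * (τ (Fin.last (n + 1)).castSucc : ℤ) ≤ (2 * (Z : ℤ) + 1) * w :=
      mul_le_mul_of_nonneg_left (hτ' _).1 (by linarith)
    have h7 : 0 ≤ (4 * (Z : ℤ) + 1 - S) * (τ (Fin.last (n + 2)) : ℤ) := mul_nonneg (by linarith) (hτ' _).2
    have h8 : (4 * (Z : ℤ) + 1 - S) * (τ (Fin.last (n + 2)) : ℤ) ≤ (4 * (Z : ℤ) + 1) * w :=
      mul_le_mul (by linarith) (hτ' _).1 (hτ' _).2 (by linarith)
    have h9 := abs_le.mp hs
    have h10 : (N : ℤ) * w ≤ Z * w := mul_le_mul_of_nonneg_right hNZ hwZ.le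
    have h11 : (R : ℤ) = (20 * Z + 20) * w := by rw [hR]; push_cast; ring
    have h12 : (0 : ℤ) ≤ Z * w := by positivity
    rw [h11, abs_lt]
    constructor <;> linarith [h9.1, h9.2]
  by_cases h : ∑ i, coef a S i * (τ i : ℤ) = s
  · rw [if_pos h, if_pos (by rw [h, sub_self]; exact dvd_zero _)]
    push_cast
    rfl
  · have h' : ¬ (R : ℤ) ∣ ∑ i, coef a S i * (τ i : ℤ) - s := fun hd =>
      h (sub_eq_zero.mp (Int.eq_zero_of_abs_lt_dvd hd hlt))
    rw [if_neg h, if_neg h']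
    simp

/-- on a uniform cell the equation has a solution in the set. -/
theorem cell_pos {n : ℕ} (hn : 0 < n) {N S K L v g w : ℕ} (hK : 0 < K) (hL : 0 < L) (hv : 0 < v)
    (hw : w = K * (L * v)) (hg : 0 < g) (hwg : w = 16 * ((2 * (∑ i, aa n N i) + 1) * g))
    (hwbig : 2 * (∑ i, aa n N i) * 3 ^ n < w)
    (hN0 : 0 < N) (hQN : QQ n ≤ N) (hfac : (QQ n).factorial ∣ N) (hLQ : ∀ q, 0 < q → q ≤ QQ n → q ∣ L)
    (hSN : 100 * S ≤ N) {η : ℝ} (hη : 0 ≤ η) (hKη : 4 * Real.pi * (10 * (n + 1) * 6 ^ n) / K ≤ η)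
    {f : ℕ → ℝ} (hf0 : ∀ t, 0 ≤ f t) (hf1 : ∀ t, f t ≤ 1) {β : ℝ} (hβ0 : 0 < β) (hβ1 : β ≤ 1)
    (hsum : ∑ t ∈ range w, f t = β * w)
    (hblock : ∀ κ < K, ∀ r < L, ∑ t ∈ range v, f (κ * (L * v) + r + L * t) ≤ (1 + η) * β * v)
    {s : ℤ} (hs0 : s ≤ 0) (hs1 : -((N : ℤ) * w) ≤ 100 * s) {m d : ℕ} (hmd : m + d + 4 ≤ n)
    {δ : ℝ} (hδ0 : 0 ≤ δ) (hδ1 : δ ≤ 1)
    (hm : 3 / 2 < Real.exp (δ ^ 2 * m / 2) * β) (H2 : 1024 * ((n : ℝ) + 1) * n ^ 2 * δ ^ d ≤ β ^ 2)
    (H3 : 15 * ((QQ n : ℝ) * (QQ n + 1)) * 3 ^ n * (n + 3) * η ≤ 3 / (768 * ((n + 1) * 2 ^ n))) :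
    ∃ τ ∈ Fintype.piFinset (fun _ : Fin (n + 3) => range w),
      ∑ i, coef (aa n N) S i * (τ i : ℤ) = s ∧ ∀ i, f (τ i) ≠ 0 := by
  classical
  set a := aa n N with ha
  set Z := ∑ i, a i with hZ
  set Q := QQ n with hQ
  have hNZ' : 2 ^ n * N ≤ Z := (aa_ge (N := N) ⟨0, hn⟩).trans
    (Finset.single_le_sum (f := a) (fun _ _ => Nat.zero_le _) (Finset.mem_univ _))
  have hN1 : N ≤ 2 ^ n * N := Nat.le_mul_of_pos_left _ (by positivity)
  have hNZ : N ≤ Z := hN1.trans hNZ'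
  have hN0' : 0 < 2 ^ n * N := by omega
  have hSZ : S ≤ Z := by omega
  have hZ0 : 0 < Z := by omega
  have hw0 : 0 < w := by rw [hw]; positivity
  have hwr : (0 : ℝ) < w := by exact_mod_cast hw0
  have hNr : (0 : ℝ) < N := by exact_mod_cast hN0
  have hKr : (0 : ℝ) < K := by exact_mod_cast hK
  obtain ⟨R, hR⟩ : ∃ R, R = (20 * Z + 20) * w := ⟨_, rfl⟩
  have hR0 : 0 < R := by rw [hR]; positivity
  have hRr : (0 : ℝ) < R := by exact_mod_cast hR0
  have hs : |s| ≤ N * w := by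
    have : (0 : ℤ) ≤ N * w := by positivity
    rw [abs_le]
    constructor <;> linarith
  -- the width of the arcs
  obtain ⟨κ, hκ⟩ : ∃ κ : ℝ, κ = 3 ^ n / w := ⟨_, rfl⟩
  have hκ0 : 0 < κ := by rw [hκ]; positivity
  have hκZ : 2 * (Z : ℝ) * κ < 1 := by
    rw [hκ, ← mul_div_assoc, div_lt_one hwr]
    exact_mod_cast hwbig
  have hNZr : (N : ℝ) ≤ Z := by exact_mod_cast hNZ
  have hZw : Z ≤ w := by
    rw [hwg]
    nlinarith
  have hwN' : ((2 ^ n * N : ℕ) : ℝ) ≤ w := by exact_mod_cast hNZ'.trans hZw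
  set W : ℕ → ℝ := fun _ => 1 with hWdef
  have hWsum : ∑ t ∈ range w, W t = 1 * w := by simp [hWdef]
  -- the two products
  set P : (ℕ → ℝ) → ℕ → ℂ := fun h x => ∏ i, F h w (coef a S i * (x / R)) with hP
  have hFf := fourier_sol a hw0 hNZ hSZ hs f hR
  have hFW := fourier_sol a hw0 hNZ hSZ hs W hR
  have hdiff : ((R * (Sol a S w s f - β ^ (n + 3) * Sol a S w s W) : ℝ) : ℂ) =
      ∑ x ∈ range R, e (-(s * x / R)) * (P f x - (β : ℂ) ^ (n + 3) * P W x) := by
    have e1 : ((R * (Sol a S w s f - β ^ (n + 3) * Sol a S w s W) : ℝ) : ℂ) =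
        ((R * Sol a S w s f : ℝ) : ℂ) - (β : ℂ) ^ (n + 3) * ((R * Sol a S w s W : ℝ) : ℂ) := by
      push_cast; ring
    rw [e1, ← hFf, ← hFW, Finset.mul_sum, ← Finset.sum_sub_distrib]
    refine Finset.sum_congr rfl fun x _ => ?_
    simp only [hP]
    ring
  have habs : R * |Sol a S w s f - β ^ (n + 3) * Sol a S w s W| ≤
      ∑ x ∈ range R, ‖P f x - (β : ℂ) ^ (n + 3) * P W x‖ := by
    have e1 : ‖((R * (Sol a S w s f - β ^ (n + 3) * Sol a S w s W) : ℝ) : ℂ)‖ =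
        R * |Sol a S w s f - β ^ (n + 3) * Sol a S w s W| := by
      rw [Complex.norm_real, Real.norm_eq_abs, abs_mul, abs_of_pos hRr]
    rw [← e1, hdiff]
    refine (norm_sum_le _ _).trans (le_of_eq ?_)
    refine Finset.sum_congr rfl fun x _ => ?_
    rw [norm_mul, norm_e, one_mul]
  set Maj := (range R).filter (fun x : ℕ => IsMaj n N κ ((x : ℝ) / R)) with hMaj
  set Min := (range R).filter (fun x : ℕ => ¬ IsMaj n N κ ((x : ℝ) / R)) with hMin
  have hsplit : ∑ x ∈ range R, ‖P f x - (β : ℂ) ^ (n + 3) * P W x‖ =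
      ∑ x ∈ Maj, ‖P f x - (β : ℂ) ^ (n + 3) * P W x‖ + ∑ x ∈ Min, ‖P f x - (β : ℂ) ^ (n + 3) * P W x‖ := by
    rw [hMaj, hMin, Finset.sum_filter_add_sum_filter_not]
  -- major arcs
  have hZN : (Z : ℝ) ≤ (n + 1) * 2 ^ n * N := by
    have := sum_aa_le (n := n) (N := N) hQN
    exact_mod_cast this
  have hZ1 : (1 : ℝ) ≤ Z := by exact_mod_cast hZ0
  have hmajpt : ∀ x ∈ Maj, ‖P f x - (β : ℂ) ^ (n + 3) * P W x‖ ≤ (n + 3 : ℕ) * (3 * η) * (β * w) ^ (n + 3) := by
    intro x hx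
    rw [hMaj, Finset.mem_filter] at hx
    obtain ⟨_, q, hq0, hqQ, b, hb⟩ := hx
    obtain ⟨l, hl⟩ := hLQ q hq0 hqQ
    have hq0r : (q : ℝ) ≠ 0 := by positivity
    have e1 : (β : ℂ) ^ (n + 3) * P W x = ∏ i : Fin (n + 3), (β : ℂ) * F W w (coef a S i * (x / R)) := by
      rw [Finset.prod_mul_distrib, Finset.prod_const, Finset.card_univ, Fintype.card_fin]
    rw [e1]
    have h3 := norm_prod_sub_prod_le (Finset.univ : Finset (Fin (n + 3)))
      (fun i => F f w (coef a S i * (x / R))) (fun i => (β : ℂ) * F W w (coef a S i * (x / R)))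
      (C := β * w) (E := 3 * η) (by positivity)
      (fun i _ => hsum ▸ norm_F_le hf0 _) (fun i _ => by
        rw [norm_mul, Complex.norm_real, Real.norm_eq_abs, abs_of_pos hβ0]
        refine mul_le_mul_of_nonneg_left ?_ hβ0.le
        have := norm_F_le (f := W) (w := w) (fun _ => zero_le_one) (coef a S i * (x / R))
        rw [hWsum, one_mul] at this
        exact this) (fun i _ => by
        have e2 : (coef a S i : ℝ) * ((x : ℝ) / R) = (coef a S i : ℝ) * (b / q) +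
            (coef a S i : ℝ) * ((x : ℝ) / R - b / q) := by ring
        have e3 : (L : ℝ) * ((coef a S i : ℝ) * (b / q)) = ((l * coef a S i * b : ℤ) : ℝ) := by
          rw [hl]
          push_cast
          field_simp
        have e4 : |(coef a S i : ℝ) * ((x : ℝ) / R - b / q)| * (K * (L * v) : ℕ) ≤ 10 * (n + 1) * 6 ^ n := by
          rw [← hw, abs_mul]
          have g1 : |(coef a S i : ℝ)| ≤ 4 * Z + 1 := by
            have := abs_coef_le a hSZ i
            exact_mod_cast this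
          calc |(coef a S i : ℝ)| * |(x : ℝ) / R - b / q| * w ≤ (5 * ((n + 1) * 2 ^ n * N)) * (2 * κ / N) * w := by
                refine mul_le_mul_of_nonneg_right (mul_le_mul (by linarith) hb (abs_nonneg _) (by positivity)) hwr.le
            _ = 10 * (n + 1) * 6 ^ n := by
                rw [hκ, show (6 : ℝ) = 2 * 3 by norm_num, mul_pow]
                field_simp
                norm_num
        have h5 := major hK hL hv hf0 hβ0.le hη (hw ▸ hsum) hblock e3 e4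
        rw [← e2, ← hw] at h5
        refine h5.trans ?_
        have h6 : 4 * Real.pi * (10 * (n + 1) * 6 ^ n) / K * (β * w) ≤ η * (β * w) :=
          mul_le_mul_of_nonneg_right hKη (by positivity)
        linarith)
    rw [Finset.card_univ, Fintype.card_fin] at h3
    exact h3
  have hcardMaj : (Maj.card : ℝ) ≤ Q * (Q + 1) * (5 * 3 ^ n * (R / (w * N))) := by
    have h1 := card_maj (n := n) (N := N) hR0 hκ0.le hN0 (by
      have h2 : (Q : ℝ) ≤ N := by exact_mod_cast hQN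
      have h3 : 2 * κ < 1 := by nlinarith
      calc (Q : ℝ) * (2 * κ / N) ≤ N * (2 * κ / N) := mul_le_mul_of_nonneg_right h2 (by positivity)
        _ = 2 * κ := by field_simp
        _ < 1 := h3)
    refine h1.trans (mul_le_mul_of_nonneg_left ?_ (by positivity))
    have h2 : 4 * κ * R / N = 4 * 3 ^ n * (R / (w * N)) := by
      rw [hκ]; field_simp
    have h3 : 1 ≤ 3 ^ n * ((R : ℝ) / (w * N)) := by
      have h4 : (1 : ℝ) ≤ 3 ^ n := one_le_pow₀ (by norm_num)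
      have h5 : (1 : ℝ) ≤ R / (w * N) := by
        rw [one_le_div (by positivity), hR]
        push_cast
        nlinarith
      nlinarith
    rw [h2]
    linarith
  -- the unit of comparison
  set U : ℝ := (β * w) ^ (n + 3) * (R / (w * N)) with hU
  have hU0 : 0 < U := by positivity
  have hEmaj : ∑ x ∈ Maj, ‖P f x - (β : ℂ) ^ (n + 3) * P W x‖ ≤ U * (3 / (768 * ((n + 1) * 2 ^ n))) := by
    refine (Finset.sum_le_sum hmajpt).trans ?_
    rw [Finset.sum_const, nsmul_eq_mul]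
    calc (Maj.card : ℝ) * ((n + 3 : ℕ) * (3 * η) * (β * w) ^ (n + 3))
        ≤ (Q * (Q + 1) * (5 * 3 ^ n * (R / (w * N)))) * ((n + 3 : ℕ) * (3 * η) * (β * w) ^ (n + 3)) :=
          mul_le_mul_of_nonneg_right hcardMaj (by positivity)
      _ = U * (15 * ((Q : ℝ) * (Q + 1)) * 3 ^ n * (n + 3) * η) := by
          rw [hU]; push_cast; ring
      _ ≤ _ := mul_le_mul_of_nonneg_left H3 hU0.le
  -- minor arcs
  have hXsub : Min ⊆ range R := Finset.filter_subset _ _
  have hRw : ∀ i j : Fin n, (a i + a j) * w < R := by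
    intro i j
    have h1 : a i ≤ Z := Finset.single_le_sum (f := a) (fun _ _ => Nat.zero_le _) (Finset.mem_univ i)
    have h2 : a j ≤ Z := Finset.single_le_sum (f := a) (fun _ _ => Nat.zero_le _) (Finset.mem_univ j)
    rw [hR]
    exact Nat.mul_lt_mul_of_pos_right (by omega) hw0
  have hcop : ∀ i j : Fin n, i ≠ j → Nat.Coprime (a i) (a j) := fun i j hij => aa_coprime hfac hij
  have hmf := minor_sum hN0' (fun i => aa_ge i) hcop hRw hf0 hf1 (B := β * w) (by positivity) hsum hXsub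
    hδ0 hδ1 hmd (fun x hx => by
      rw [hMin, Finset.mem_filter] at hx
      exact minor_count hN0 hQN hw0 hκ hκZ hf0 hf1 hβ0 hsum hδ0 hm hx.2)
  have hmW := minor_sum hN0' (fun i => aa_ge i) hcop hRw (f := W) (fun _ => zero_le_one) (fun _ => le_rfl)
    (B := 1 * w) (by positivity) hWsum hXsub
    hδ0 hδ1 hmd (fun x hx => by
      rw [hMin, Finset.mem_filter] at hx
      refine minor_count hN0 hQN hw0 hκ hκZ (fun _ => zero_le_one) (fun _ => le_rfl) one_pos hWsum hδ0 ?_ hx.2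
      have : Real.exp (δ ^ 2 * m / 2) * β ≤ Real.exp (δ ^ 2 * m / 2) * 1 :=
        mul_le_mul_of_nonneg_left hβ1 (Real.exp_pos _).le
      linarith)
  rw [one_mul] at hmW
  have hminpt : ∀ x ∈ Min, ‖P f x - (β : ℂ) ^ (n + 3) * P W x‖ ≤
      (β * w) ^ 3 * ∏ i, ‖F f w (a i * (x / R))‖ + β ^ (n + 3) * (w ^ 3 * ∏ i, ‖F W w (a i * (x / R))‖) := by
    intro x _
    refine (norm_sub_le _ _).trans (add_le_add ?_ ?_)
    · simp only [hP]
      rw [norm_prod]
      have h1 := prod_coef a S (fun z => ‖F f w (z * (x / R))‖)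
      rw [h1]
      have hb : ∀ z : ℤ, ‖F f w (z * (x / R))‖ ≤ β * w := fun z => hsum ▸ norm_F_le hf0 _
      have h0 : 0 ≤ ∏ i : Fin n, ‖F f w ((a i : ℤ) * (x / R))‖ := Finset.prod_nonneg fun _ _ => norm_nonneg _
      have h2 : (∏ i : Fin n, ‖F f w ((a i : ℤ) * (x / R))‖) = ∏ i : Fin n, ‖F f w (a i * (x / R))‖ := by
        refine Finset.prod_congr rfl fun i _ => ?_
        rw [Int.cast_natCast]
      rw [h2] at h0 ⊢
      calc _ ≤ (∏ i : Fin n, ‖F f w (a i * (x / R))‖) * (β * w) * (β * w) * (β * w) := by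
            refine mul_le_mul (mul_le_mul (mul_le_mul_of_nonneg_left (hb _) h0) (hb _) (norm_nonneg _) ?_)
              (hb _) (norm_nonneg _) ?_
            · positivity
            · positivity
        _ = _ := by ring
    · rw [norm_mul, norm_pow, Complex.norm_real, Real.norm_eq_abs, abs_of_pos hβ0]
      refine mul_le_mul_of_nonneg_left ?_ (by positivity)
      simp only [hP]
      rw [norm_prod]
      have h1 := prod_coef a S (fun z => ‖F W w (z * (x / R))‖)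
      rw [h1]
      have hb : ∀ z : ℤ, ‖F W w (z * (x / R))‖ ≤ w := fun z => by
        have := norm_F_le (f := W) (w := w) (fun _ => zero_le_one) (z * (x / R))
        rwa [hWsum, one_mul] at this
      have h0 : 0 ≤ ∏ i : Fin n, ‖F W w ((a i : ℤ) * (x / R))‖ := Finset.prod_nonneg fun _ _ => norm_nonneg _
      have h2 : (∏ i : Fin n, ‖F W w ((a i : ℤ) * (x / R))‖) = ∏ i : Fin n, ‖F W w (a i * (x / R))‖ := by
        refine Finset.prod_congr rfl fun i _ => ?_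
        rw [Int.cast_natCast]
      rw [h2] at h0 ⊢
      calc _ ≤ (∏ i : Fin n, ‖F W w (a i * (x / R))‖) * w * w * w := by
            refine mul_le_mul (mul_le_mul (mul_le_mul_of_nonneg_left (hb _) h0) (hb _) (norm_nonneg _) ?_)
              (hb _) (norm_nonneg _) ?_
            · positivity
            · positivity
        _ = _ := by ring
  have hEmin : ∑ x ∈ Min, ‖P f x - (β : ℂ) ^ (n + 3) * P W x‖ ≤ U * (3 / (768 * ((n + 1) * 2 ^ n))) := by
    refine (Finset.sum_le_sum hminpt).trans ?_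
    rw [Finset.sum_add_distrib, ← Finset.mul_sum, ← Finset.mul_sum, ← Finset.mul_sum]
    have h1 : (w : ℝ) / ((2 ^ n * N : ℕ) : ℝ) + 1 ≤ 2 * (w / (2 ^ n * N)) := by
      have h0 : (0 : ℝ) < ((2 ^ n * N : ℕ) : ℝ) := by exact_mod_cast hN0'
      have : 1 ≤ (w : ℝ) / ((2 ^ n * N : ℕ) : ℝ) := by rw [one_le_div h0]; exact hwN'
      push_cast at this ⊢
      linarith
    have hβ2 : β ^ 2 ≤ 1 := pow_le_one₀ hβ0.le hβ1
    calc (β * w) ^ 3 * ∑ x ∈ Min, ∏ i, ‖F f w (a i * (x / R))‖ +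
          β ^ (n + 3) * ((w : ℝ) ^ 3 * ∑ x ∈ Min, ∏ i, ‖F W w (a i * (x / R))‖)
        ≤ (β * w) ^ 3 * ((β * w) ^ n * (δ ^ d * (n ^ 2 * (R * ((w / ((2 ^ n * N : ℕ) : ℝ) + 1) / (β * w) ^ 2))))) +
          β ^ (n + 3) * ((w : ℝ) ^ 3 * (w ^ n * (δ ^ d * (n ^ 2 * (R *
            ((w / ((2 ^ n * N : ℕ) : ℝ) + 1) / w ^ 2)))))) := by
          gcongr
      _ = (β * w) ^ (n + 3) * (δ ^ d * (n ^ 2 * (R * ((w / ((2 ^ n * N : ℕ) : ℝ) + 1) *
            (1 / (β * w) ^ 2 + 1 / w ^ 2))))) := by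
          rw [pow_add, mul_pow β (w : ℝ) 3, mul_pow β (w : ℝ) n]
          ring
      _ ≤ (β * w) ^ (n + 3) * (δ ^ d * (n ^ 2 * (R * ((2 * (w / (2 ^ n * N))) * (2 / (β * w) ^ 2))))) := by
          have h2 : 1 / (w : ℝ) ^ 2 ≤ 1 / (β * w) ^ 2 := by
            refine one_div_le_one_div_of_le (by positivity) ?_
            rw [mul_pow]
            nlinarith [sq_nonneg (w : ℝ)]
          have h3 : 1 / (β * w) ^ 2 + 1 / (w : ℝ) ^ 2 ≤ 2 / (β * w) ^ 2 := by
            have : 2 / (β * (w : ℝ)) ^ 2 = 1 / (β * w) ^ 2 + 1 / (β * w) ^ 2 := by ring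
            rw [this]
            linarith
          gcongr
      _ = U * (4 * n ^ 2 * δ ^ d / (2 ^ n * β ^ 2)) := by
          rw [hU]
          field_simp
          norm_num
      _ ≤ _ := by
          refine mul_le_mul_of_nonneg_left ?_ hU0.le
          rw [div_le_div_iff₀ (by positivity) (by positivity)]
          have h4 : 0 < (2 : ℝ) ^ n := by positivity
          calc 4 * (n : ℝ) ^ 2 * δ ^ d * (768 * ((n + 1) * 2 ^ n)) =
              3 * (1024 * ((n : ℝ) + 1) * n ^ 2 * δ ^ d) * 2 ^ n := by ring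
            _ ≤ 3 * β ^ 2 * 2 ^ n := by gcongr
            _ = _ := by ring
  -- the main term
  have hcount := count (s := s) (a := a) (S := S) hNZ hN0 hSN hg hwg hs0 hs1
  have hSolW : Sol a S w s W = (((Fintype.piFinset (fun _ : Fin (n + 3) => range w)).filter
      (fun τ => ∑ i, coef a S i * (τ i : ℤ) = s)).card : ℝ) := by
    unfold Sol
    simp [hWdef]
  have hmain : U * (7 / (768 * ((n + 1) * 2 ^ n))) ≤ R * (β ^ (n + 3) * Sol a S w s W) := by
    have h1 : ((w ^ n * ((2 * Z + 1) * g * (7 * g)) : ℕ) : ℝ) ≤ Sol a S w s W := by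
      rw [hSolW]
      exact_mod_cast hcount
    have hgr : (0 : ℝ) < g := by exact_mod_cast hg
    have hwg' : (w : ℝ) = 16 * ((2 * Z + 1) * g) := by rw [hwg]; push_cast; ring
    have h2 : (w : ℝ) ^ (n + 2) * (7 / (768 * ((n + 1) * 2 ^ n) * N)) ≤ Sol a S w s W := by
      refine le_trans ?_ h1
      push_cast
      rw [pow_add, mul_assoc]
      refine mul_le_mul_of_nonneg_left ?_ (by positivity)
      rw [← mul_div_assoc, div_le_iff₀ (by positivity)]
      have h3 : (w : ℝ) ^ 2 = 256 * ((2 * (Z : ℝ) + 1) * (g : ℝ)) ^ 2 := by rw [hwg']; ring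
      rw [h3]
      have h4 : (2 * (Z : ℝ) + 1) ≤ 3 * (((n : ℝ) + 1) * (2 : ℝ) ^ n * (N : ℝ)) := by linarith
      have h5 : 1792 * ((2 * (Z : ℝ) + 1) * (g : ℝ) ^ 2) * (2 * (Z : ℝ) + 1) ≤
          1792 * ((2 * (Z : ℝ) + 1) * (g : ℝ) ^ 2) * (3 * (((n : ℝ) + 1) * (2 : ℝ) ^ n * (N : ℝ))) :=
        mul_le_mul_of_nonneg_left h4 (by positivity)
      linarith
    calc U * (7 / (768 * ((n + 1) * 2 ^ n))) =
          R * (β ^ (n + 3) * ((w : ℝ) ^ (n + 2) * (7 / (768 * ((n + 1) * 2 ^ n) * N)))) := by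
          rw [hU, mul_pow]
          field_simp
          ring
      _ ≤ _ := by gcongr
  -- conclusion
  have hpos : 0 < Sol a S w s f := by
    by_contra hneg
    push Not at hneg
    have h1 : R * (β ^ (n + 3) * Sol a S w s W) ≤ R * |Sol a S w s f - β ^ (n + 3) * Sol a S w s W| := by
      refine mul_le_mul_of_nonneg_left ?_ hRr.le
      have := neg_abs_le (Sol a S w s f - β ^ (n + 3) * Sol a S w s W)
      linarith
    have h2 := h1.trans habs
    rw [hsplit] at h2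
    have h3 : U * (7 / (768 * ((n + 1) * 2 ^ n))) ≤
        U * (3 / (768 * ((n + 1) * 2 ^ n))) + U * (3 / (768 * ((n + 1) * 2 ^ n))) :=
      hmain.trans (h2.trans (add_le_add hEmaj hEmin))
    have h4 : U * (7 / (768 * ((n + 1) * 2 ^ n))) -
        (U * (3 / (768 * ((n + 1) * 2 ^ n))) + U * (3 / (768 * ((n + 1) * 2 ^ n)))) =
        U / (768 * ((n + 1) * 2 ^ n)) := by ring
    have h5 : 0 < U / (768 * ((n + 1) * 2 ^ n)) := by positivity
    linarith
  unfold Sol at hpos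
  obtain ⟨τ, hτ, hτ0⟩ := Finset.exists_ne_zero_of_sum_ne_zero hpos.ne'
  rw [Finset.mem_filter] at hτ
  exact ⟨τ, hτ.1, hτ.2, fun i h => hτ0 (Finset.prod_eq_zero (Finset.mem_univ i) h)⟩

end Pool.Agent.RadoE
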