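import Mathlib

/-!
# The number of all solutions in a box
-/

namespace Pool.Agent.RadoE

open Finset

/-- the coefficients: the given ones `a i`, and `Z`, `2 Z + 1`, `-(4 Z + 1 - S)`, where `Z` is the sum of the
`a i`. -/
def coef {n : ℕ} (a : Fin n → ℕ) (S : ℕ) : Fin (n + 3) → ℤ :=
  Fin.snoc (α := fun _ => ℤ) (Fin.snoc (α := fun _ => ℤ) (Fin.snoc (α := fun _ => ℤ) (fun i => (a i : ℤ))
    ((∑ i, a i : ℕ) : ℤ)) (2 * ((∑ i, a i : ℕ) : ℤ) + 1)) (-(4 * ((∑ i, a i : ℕ) : ℤ) + 1 - S))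

/-- a vector of `n + 3` entries. -/
def vec {n : ℕ} (τ : Fin n → ℕ) (p q u : ℕ) : Fin (n + 3) → ℕ :=
  Fin.snoc (α := fun _ => ℕ) (Fin.snoc (α := fun _ => ℕ) (Fin.snoc (α := fun _ => ℕ) τ p) q) u

lemma vec_last {n : ℕ} (τ : Fin n → ℕ) (p q u : ℕ) : vec τ p q u (Fin.last _) = u := by
  simp [vec]

lemma vec_inj {n : ℕ} {τ τ' : Fin n → ℕ} {p q u p' q' u' : ℕ} (h : vec τ p q u = vec τ' p' q' u') :
    τ = τ' ∧ p = p' ∧ q = q' ∧ u = u' := by
  unfold vec at h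
  rw [Fin.snoc_inj, Fin.snoc_inj, Fin.snoc_inj] at h
  exact ⟨h.1.1.1, h.1.1.2, h.1.2, h.2⟩

lemma vec_mem {n w : ℕ} {τ : Fin n → ℕ} {p q u : ℕ} (hτ : ∀ i, τ i < w) (hp : p < w) (hq : q < w) (hu : u < w) :
    vec τ p q u ∈ Fintype.piFinset (fun _ : Fin (n + 3) => range w) := by
  rw [Fintype.mem_piFinset]
  intro i
  rw [Finset.mem_range]
  unfold vec
  refine Fin.lastCases ?_ (fun i => ?_) i
  · simpa using hu
  · rw [Fin.snoc_castSucc]
    refine Fin.lastCases ?_ (fun i => ?_) i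
    · simpa using hq
    · rw [Fin.snoc_castSucc]
      refine Fin.lastCases ?_ (fun i => ?_) i
      · simpa using hp
      · rw [Fin.snoc_castSucc]
        exact hτ i

lemma sum_coef {n : ℕ} (a : Fin n → ℕ) (S : ℕ) (g : Fin (n + 3) → ℤ) :
    ∑ i, coef a S i * g i = ∑ i : Fin n, (a i : ℤ) * g i.castSucc.castSucc.castSucc +
      ((∑ i, a i : ℕ) : ℤ) * g (Fin.last n).castSucc.castSucc +
      (2 * ((∑ i, a i : ℕ) : ℤ) + 1) * g (Fin.last (n + 1)).castSucc +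
      -(4 * ((∑ i, a i : ℕ) : ℤ) + 1 - S) * g (Fin.last (n + 2)) := by
  unfold coef
  rw [Fin.sum_univ_castSucc, Fin.sum_univ_castSucc, Fin.sum_univ_castSucc]
  simp only [Fin.snoc_castSucc, Fin.snoc_last]

lemma sum_coef_vec {n : ℕ} (a : Fin n → ℕ) (S : ℕ) (τ : Fin n → ℕ) (p q u : ℕ) :
    ∑ i, coef a S i * (vec τ p q u i : ℤ) = ∑ i : Fin n, (a i : ℤ) * τ i +
      ((∑ i, a i : ℕ) : ℤ) * p + (2 * ((∑ i, a i : ℕ) : ℤ) + 1) * q +
      -(4 * ((∑ i, a i : ℕ) : ℤ) + 1 - S) * u := by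
  rw [sum_coef]
  simp only [vec, Fin.snoc_castSucc, Fin.snoc_last]

/-- the number of solutions in a box of side `w = 16 (2 Z + 1) g`. -/
theorem count {n : ℕ} {a : Fin n → ℕ} {S N g w : ℕ} {s : ℤ} (hN : N ≤ ∑ i, a i) (hN0 : 0 < N) (hS : 100 * S ≤ N)
    (hg : 0 < g) (hw : w = 16 * ((2 * ∑ i, a i + 1) * g)) (hs0 : s ≤ 0) (hs1 : -((N : ℤ) * w) ≤ 100 * s) :
    w ^ n * ((2 * ∑ i, a i + 1) * g * (7 * g)) ≤
      ((Fintype.piFinset (fun _ : Fin (n + 3) => range w)).filter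
        (fun τ => ∑ i, coef a S i * (τ i : ℤ) = s)).card := by
  classical
  set Z := ∑ i, a i with hZ
  set D := 2 * Z + 1 with hD
  have hZ0 : 0 < Z := by omega
  -- the residue
  set nn : (Fin n → ℕ) → ℕ → ℤ := fun τ μ =>
    s - ∑ i, (a i : ℤ) * τ i + (4 * (Z : ℤ) + 1 - S) * (8 * (D * g) + μ) with hnn
  set ρ : (Fin n → ℕ) → ℕ → ℕ := fun τ μ => ((-2 * nn τ μ) % (D : ℤ)).toNat with hρ
  set pp : (Fin n → ℕ) → ℕ → ℕ → ℕ := fun τ μ ν => 8 * (D * g) + ρ τ μ + D * ν with hpp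
  set qq : (Fin n → ℕ) → ℕ → ℕ → ℕ := fun τ μ ν => ((nn τ μ - Z * (pp τ μ ν : ℤ)) / D).toNat with hqq
  have hD0 : (0 : ℤ) < D := by
    rw [hD]; push_cast; linarith [(Nat.zero_le Z : 0 ≤ Z)]
  have hDZ : (D : ℤ) = 2 * Z + 1 := by rw [hD]; push_cast; ring
  have hρ0 : ∀ τ μ, ((ρ τ μ : ℕ) : ℤ) = (-2 * nn τ μ) % (D : ℤ) := fun τ μ =>
    Int.toNat_of_nonneg (Int.emod_nonneg _ hD0.ne')
  have hρ1 : ∀ τ μ, ρ τ μ < D := by
    intro τ μ
    have := Int.emod_lt_of_pos (-2 * nn τ μ) hD0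
    rw [← hρ0] at this
    exact_mod_cast this
  have hdvd : ∀ τ μ ν, (D : ℤ) ∣ nn τ μ - Z * (pp τ μ ν : ℤ) := by
    intro τ μ ν
    have h1 : (D : ℤ) ∣ (-2 * nn τ μ) - ρ τ μ := by
      rw [hρ0]
      exact Int.dvd_self_sub_emod
    obtain ⟨x, hx⟩ := h1
    refine ⟨-nn τ μ + nn τ μ + nn τ μ + Z * x - Z * (8 * g) - Z * ν, ?_⟩
    simp only [hpp]
    push_cast
    have h2 : ((ρ τ μ : ℕ) : ℤ) = -2 * nn τ μ - D * x := by linarith
    rw [h2, hDZ]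
    ring
  have hτsum : ∀ τ : Fin n → ℕ, (∀ i, τ i < w) → 0 ≤ ∑ i, (a i : ℤ) * τ i ∧
      ∑ i, (a i : ℤ) * τ i ≤ Z * w := by
    intro τ hτ
    constructor
    · exact Finset.sum_nonneg fun i _ => by positivity
    · rw [hZ]
      push_cast
      rw [Finset.sum_mul]
      refine Finset.sum_le_sum fun i _ => ?_
      have : (τ i : ℤ) ≤ w := by exact_mod_cast (hτ i).le
      exact mul_le_mul_of_nonneg_left this (by positivity)
  have hwz : (w : ℤ) = 16 * (D * g) := by rw [hw]; push_cast; ring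
  have hg' : (1 : ℤ) ≤ g := by exact_mod_cast hg
  have hDg : (0 : ℤ) < D * g := by positivity
  have hNZ : (N : ℤ) ≤ Z := by exact_mod_cast hN
  have hSZ : 100 * (S : ℤ) ≤ N := by exact_mod_cast hS
  have hS0 : (0 : ℤ) ≤ S := by positivity
  have hZ1 : (1 : ℤ) ≤ Z := by exact_mod_cast hZ0
  have hbounds : ∀ τ : Fin n → ℕ, (∀ i, τ i < w) → ∀ μ < D * g, ∀ ν < 7 * g,
      0 ≤ nn τ μ - Z * (pp τ μ ν : ℤ) ∧ nn τ μ - Z * (pp τ μ ν : ℤ) < D * w ∧ pp τ μ ν < w ∧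
        8 * (D * g) + μ < w := by
    intro τ hτ μ hμ ν hν
    obtain ⟨t1, t2⟩ := hτsum τ hτ
    have hp1 : (pp τ μ ν : ℤ) ≤ 15 * (D * g) := by
      have h1 : (ρ τ μ : ℤ) ≤ D := by exact_mod_cast (hρ1 τ μ).le
      have h2 : (ν : ℤ) + 1 ≤ 7 * g := by exact_mod_cast hν
      simp only [hpp]
      push_cast
      nlinarith
    have hp2 : 8 * (D * g : ℤ) ≤ pp τ μ ν := by
      simp only [hpp]
      push_cast
      have : (0 : ℤ) ≤ ρ τ μ := by positivity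
      have : (0 : ℤ) ≤ D * ν := by positivity
      linarith
    have hμ1 : (μ : ℤ) ≤ D * g := by exact_mod_cast hμ.le
    have hμ0 : (0 : ℤ) ≤ μ := by positivity
    have hn1 : 15 * (Z * (D * g : ℤ)) ≤ nn τ μ := by
      simp only [hnn]
      have h3 : (4 * (Z : ℤ) + 1 - S) * (8 * (D * g)) ≤ (4 * (Z : ℤ) + 1 - S) * (8 * (D * g) + μ) :=
        mul_le_mul_of_nonneg_left (by linarith) (by linarith)
      have h4 : -(16 * (N * (D * g : ℤ))) ≤ 100 * s := by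
        rw [hwz] at hs1
        linarith
      have h5 : ∑ i, (a i : ℤ) * τ i ≤ 16 * (Z * (D * g)) := by
        rw [hwz] at t2
        linarith
      have h6 : 100 * (S * (D * g : ℤ)) ≤ N * (D * g) := by
        nlinarith
      have h7 : (N : ℤ) * (D * g) ≤ Z * (D * g) := mul_le_mul_of_nonneg_right hNZ hDg.le
      nlinarith
    have hn2 : nn τ μ ≤ 18 * (D * (D * g : ℤ)) := by
      simp only [hnn]
      have h3 : (4 * (Z : ℤ) + 1 - S) ≤ 2 * D := by rw [hDZ]; linarith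
      have h4 : (4 * (Z : ℤ) + 1 - S) * (8 * (D * g) + μ) ≤ 2 * D * (9 * (D * g)) :=
        mul_le_mul h3 (by linarith) (by positivity) (by positivity)
      nlinarith
    have hpu : (pp τ μ ν : ℤ) < w := by rw [hwz]; linarith
    refine ⟨?_, ?_, by exact_mod_cast hpu, ?_⟩
    · have h8 : (Z : ℤ) * pp τ μ ν ≤ Z * (15 * (D * g)) := mul_le_mul_of_nonneg_left hp1 (by positivity)
      linarith
    · have h8 : (Z : ℤ) * (8 * (D * g)) ≤ Z * pp τ μ ν := mul_le_mul_of_nonneg_left hp2 (by positivity)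
      have h9 : (Z : ℤ) * (8 * (D * g)) = 4 * (D * (D * g)) - 4 * (D * g) := by
        rw [hDZ]; ring
      have h10 : (D * g : ℤ) < D * (D * g) := by
        have : (1 : ℤ) < D := by rw [hDZ]; linarith
        nlinarith
      rw [hwz]
      nlinarith
    · have : ((8 * (D * g) + μ : ℕ) : ℤ) < w := by
        push_cast
        rw [hwz]
        linarith
      exact_mod_cast this
  have hqspec : ∀ τ : Fin n → ℕ, (∀ i, τ i < w) → ∀ μ < D * g, ∀ ν < 7 * g,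
      (D : ℤ) * (qq τ μ ν : ℤ) = nn τ μ - Z * (pp τ μ ν : ℤ) ∧ qq τ μ ν < w := by
    intro τ hτ μ hμ ν hν
    obtain ⟨b1, b2, _, _⟩ := hbounds τ hτ μ hμ ν hν
    have h1 : ((qq τ μ ν : ℕ) : ℤ) = (nn τ μ - Z * (pp τ μ ν : ℤ)) / D := by
      simp only [hqq]
      exact Int.toNat_of_nonneg (Int.ediv_nonneg b1 hD0.le)
    have h2 : (D : ℤ) * (qq τ μ ν : ℤ) = nn τ μ - Z * (pp τ μ ν : ℤ) := by
      rw [h1]
      exact Int.mul_ediv_cancel' (hdvd τ μ ν)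
    refine ⟨h2, ?_⟩
    have h3 : (D : ℤ) * (qq τ μ ν : ℤ) < D * w := by rw [h2]; exact b2
    have h4 : ((qq τ μ ν : ℕ) : ℤ) < w := lt_of_mul_lt_mul_left h3 hD0.le
    exact_mod_cast h4
  -- the map
  set Src := (Fintype.piFinset (fun _ : Fin n => range w)) ×ˢ ((range (D * g)) ×ˢ (range (7 * g))) with hSrc
  have hcard : Src.card = w ^ n * (D * g * (7 * g)) := by
    rw [hSrc, Finset.card_product, Finset.card_product, Fintype.card_piFinset, card_range, card_range]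
    simp
  rw [← hcard]
  refine Finset.card_le_card_of_injOn
    (fun x => vec x.1 (pp x.1 x.2.1 x.2.2) (qq x.1 x.2.1 x.2.2) (8 * (D * g) + x.2.1)) ?_ ?_
  · rintro ⟨τ, μ, ν⟩ hx
    simp only [hSrc, Finset.coe_product, Set.mem_prod, Finset.mem_coe, Fintype.mem_piFinset,
      Finset.mem_range] at hx
    obtain ⟨hτ, hμ, hν⟩ := hx
    obtain ⟨_, _, b3, b4⟩ := hbounds τ hτ μ hμ ν hν
    obtain ⟨q1, q2⟩ := hqspec τ hτ μ hμ ν hν
    simp only [Finset.coe_filter, Set.mem_ofPred_eq]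
    refine ⟨vec_mem hτ b3 q2 b4, ?_⟩
    rw [sum_coef_vec, ← hZ]
    have h5 : (2 * (Z : ℤ) + 1) * (qq τ μ ν : ℤ) = nn τ μ - Z * (pp τ μ ν : ℤ) := by rw [← hDZ]; exact q1
    rw [h5]
    simp only [hnn]
    push_cast
    ring
  · rintro ⟨τ, μ, ν⟩ hx ⟨τ', μ', ν'⟩ hx' heq
    simp only at heq
    obtain ⟨e1, e2, _, e4⟩ := vec_inj heq
    have e5 : μ = μ' := by omega
    subst e1
    subst e5
    simp only [hpp] at e2
    have e6 : D * ν = D * ν' := by omega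
    have e7 : ν = ν' := Nat.eq_of_mul_eq_mul_left (by exact_mod_cast hD0) e6
    rw [e7]

end Pool.Agent.RadoE
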