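import Pool.Agent.RadoE.Main
import Pool.Agent.RadoB.Groups

/-!
# Exponentially many colours
-/

namespace Pool.Agent.RadoE

open Finset Pool.Agent.RadoB Filter

/-- a finite colouring without monochromatic solution exists (Rado). -/
lemma exists_bound {k : ℕ} (hk : 0 < k) {a : Fin k → ℤ} (ha : ¬ RadoCondition a) : ∃ r, Bound a r := by
  obtain ⟨q, hq, hqp⟩ := Nat.exists_infinite_primes (∑ i, (a i).natAbs + 1)
  refine ⟨q, rado_digit hk hqp fun J hJ hd => ha ⟨J, hJ, ?_⟩⟩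
  refine Int.eq_zero_of_abs_lt_dvd hd ?_
  have h1 : |∑ i ∈ J, a i| ≤ ∑ i, |a i| :=
    (Finset.abs_sum_le_sum_abs _ _).trans (Finset.sum_le_univ_sum_of_nonneg fun _ => abs_nonneg _)
  have h2 : (∑ i, |a i|) = ((∑ i, (a i).natAbs : ℕ) : ℤ) := by
    push_cast
    rfl
  have h3 : ((∑ i, (a i).natAbs : ℕ) : ℤ) < q := by exact_mod_cast (by omega : ∑ i, (a i).natAbs < q)
  linarith

/-- from the statement on colourings to `c a`. -/
lemma c_gt {k : ℕ} (hk : 0 < k) {a : Fin k → ℤ} (ha : ¬ RadoCondition a) {r0 : ℕ}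
    (h : ∀ r ≤ r0, ∀ χ : ℕ → Fin r, ∃ x : Fin k → ℕ, (∀ i, 0 < x i) ∧ (∀ i j, χ (x i) = χ (x j)) ∧
      ∑ i, a i * (x i : ℤ) = 0) : (∃ r, Bound a r) ∧ r0 < c a := by
  refine ⟨exists_bound hk ha, ?_⟩
  obtain ⟨r, hr⟩ := exists_bound hk ha
  obtain ⟨χ, hχ⟩ := hr.2
  by_contra hcon
  push Not at hcon
  obtain ⟨x, hx, hc, hs⟩ := h (c a) hcon (fun m => if h : 0 < m then χ ⟨m, h⟩ else χ 1)
  apply hχ
  refine ⟨fun i => ⟨x i, hx i⟩, fun i j => ?_, ?_⟩
  · have := hc i j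
    rwa [dif_pos (hx i), dif_pos (hx j)] at this
  · simpa using hs

/-- a solution for one colour. -/
lemma small_case {k : ℕ} (hk : 2 ≤ k) : ∃ a : Fin k → ℤ, ¬ RadoCondition a ∧ (∃ r, Bound a r) ∧ 1 < c a := by
  obtain ⟨l, rfl⟩ : ∃ l, k = l + 1 := ⟨k - 1, by omega⟩
  set a : Fin (l + 1) → ℤ := Fin.snoc (α := fun _ => ℤ) (fun _ => 1) (-((l : ℤ) + 1)) with ha
  have hlast : a (Fin.last l) = -((l : ℤ) + 1) := by simp [ha]
  have hcast : ∀ i : Fin l, a i.castSucc = 1 := fun i => by simp [ha]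
  have hne : ∀ i : Fin (l + 1), i ≠ Fin.last l → a i = 1 := by
    intro i
    refine Fin.lastCases ?_ (fun i => ?_) i
    · intro h; exact absurd rfl h
    · intro _; exact hcast i
  have hR : ¬ RadoCondition a := by
    rintro ⟨I, hI, h0⟩
    by_cases hl : Fin.last l ∈ I
    · rw [← Finset.add_sum_erase _ _ hl, hlast] at h0
      have h1 : ∑ i ∈ I.erase (Fin.last l), a i = ((I.erase (Fin.last l)).card : ℤ) := by
        rw [Finset.sum_congr rfl fun i hi => hne i (Finset.ne_of_mem_erase hi)]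
        simp
      rw [h1] at h0
      have h2 : (I.erase (Fin.last l)).card ≤ l := by
        have h3 := Finset.card_erase_of_mem hl
        have h4 := Finset.card_le_univ I
        rw [Fintype.card_fin] at h4
        omega
      have h5 : ((I.erase (Fin.last l)).card : ℤ) ≤ l := by exact_mod_cast h2
      linarith
    · rw [Finset.sum_congr rfl fun i hi => hne i (fun h => hl (h ▸ hi))] at h0
      simp only [Finset.sum_const, nsmul_eq_mul, mul_one] at h0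
      have h1 : I.card = 0 := by exact_mod_cast h0
      rw [Finset.card_eq_zero] at h1
      exact hI.ne_empty h1
  refine ⟨a, hR, c_gt (by omega) hR ?_⟩
  intro r hr χ
  refine ⟨Fin.snoc (α := fun _ => ℕ) (fun _ => l + 1) l, ?_, ?_, ?_⟩
  · intro i
    refine Fin.lastCases ?_ (fun i => ?_) i
    · simp; omega
    · simp
  · intro i j
    apply Fin.ext
    have h1 := (χ ((Fin.snoc (α := fun _ => ℕ) (fun _ => l + 1) l : Fin (l + 1) → ℕ) i)).2
    have h2 := (χ ((Fin.snoc (α := fun _ => ℕ) (fun _ => l + 1) l : Fin (l + 1) → ℕ) j)).2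
    omega
  · rw [Fin.sum_univ_castSucc]
    simp only [Fin.snoc_castSucc, Fin.snoc_last, hcast, hlast]
    simp
    ring

/-- the largest number of colours. -/
lemma exists_R0 (k C : ℕ) (hC : 0 < C) : ∃ R0 : ℕ, 0 < R0 ∧ R0 ^ C ≤ 2 ^ k ∧ ∀ r, r ^ C ≤ 2 ^ k → r ≤ R0 := by
  classical
  have hb : ∀ r, r ^ C ≤ 2 ^ k → r ≤ 2 ^ k := fun r hr => (Nat.le_self_pow hC.ne' r).trans hr
  have h1 : 1 ^ C ≤ 2 ^ k := by rw [one_pow]; exact Nat.one_le_two_pow
  refine ⟨Nat.findGreatest (fun r => r ^ C ≤ 2 ^ k) (2 ^ k), ?_, ?_, ?_⟩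
  · exact Nat.le_findGreatest Nat.one_le_two_pow h1
  · exact Nat.findGreatest_spec (P := fun r => r ^ C ≤ 2 ^ k) Nat.one_le_two_pow h1
  · intro r hr
    exact Nat.le_findGreatest (hb r hr) hr

/-- the conclusion from the numerical conditions. -/
lemma of_numeric {k C n m d : ℕ} (hC : 0 < C) (hk : k = n + 3) (hn : 0 < n) (hmd : m + d + 4 ≤ n) {δ : ℝ}
    (hδ0 : 0 ≤ δ) (hδ1 : δ ≤ 1)
    (hm : ∀ R : ℕ, 0 < R → R ^ C ≤ 2 ^ k → 3 / 2 * (R : ℝ) < Real.exp (δ ^ 2 * m / 2))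
    (H2 : ∀ R : ℕ, 0 < R → R ^ C ≤ 2 ^ k → 1024 * ((n : ℝ) + 1) * n ^ 2 * δ ^ d * R ^ 2 ≤ 1) :
    ∃ a : Fin k → ℤ, ¬ RadoCondition a ∧ (∃ r, Bound a r) ∧ 2 ^ k < c a ^ C := by
  subst hk
  obtain ⟨R0, h0, h1, h2⟩ := exists_R0 (n + 3) C hC
  obtain ⟨a, ha, hχ⟩ := main_large hn h0 hmd hδ0 hδ1 (hm R0 h0 h1) (H2 R0 h0 h1)
  have hR : ¬ RadoCondition a := by
    rintro ⟨I, hI, hs⟩
    exact ha I hI hs
  obtain ⟨hb, hlt⟩ := c_gt (by omega) hR hχ
  refine ⟨a, hR, hb, ?_⟩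
  by_contra hcon
  push Not at hcon
  exact absurd (h2 _ hcon) (not_le.mpr hlt)

lemma log_le_of_pow {R C k : ℕ} (hR : 0 < R) (h : R ^ C ≤ 2 ^ k) : C * Real.log R ≤ k * Real.log 2 := by
  have h1 : ((R : ℝ)) ^ C ≤ 2 ^ k := by exact_mod_cast h
  have h2 := Real.log_le_log (by positivity) h1
  rwa [Real.log_pow, Real.log_pow] at h2

lemma log_three_halves : Real.log (3 / 2) < 42 / 100 := by
  rw [Real.log_lt_iff_lt_exp (by norm_num)]
  have := Real.quadratic_le_exp_of_nonneg (x := 42 / 100) (by norm_num)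
  norm_num at this ⊢
  linarith

/-- all `k`. -/
theorem all_k {k : ℕ} (hk : 2 ≤ k) :
    ∃ a : Fin k → ℤ, ¬ RadoCondition a ∧ (∃ r, Bound a r) ∧ 2 ^ k < c a ^ 60 := by
  rcases Nat.lt_or_ge k 60 with hk60 | hk60
  · obtain ⟨a, ha, hb, hc⟩ := small_case hk
    refine ⟨a, ha, hb, ?_⟩
    calc 2 ^ k < 2 ^ 60 := Nat.pow_lt_pow_right (by norm_num) hk60
      _ ≤ c a ^ 60 := Nat.pow_le_pow_left hc _
  · obtain ⟨t, ht⟩ : ∃ t, t = k / 15 := ⟨_, rfl⟩
    have ht4 : 4 ≤ t := by omega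
    have htk : k ≤ 15 * t + 14 := by omega
    have htk' : 15 * t ≤ k := by omega
    refine of_numeric (C := 60) (n := k - 3) (m := 4 + t) (d := k - 11 - t) (δ := 3 / 5) (by norm_num) (by omega)
      (by omega) (by omega) (by norm_num) (by norm_num) ?_ ?_
    · intro R hR hRk
      have h1 := log_le_of_pow hR hRk
      have hRr : (0 : ℝ) < R := by exact_mod_cast hR
      rw [← Real.log_lt_iff_lt_exp (by positivity), Real.log_mul (by norm_num) hRr.ne']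
      have h2 := log_three_halves
      have h3 := Real.log_two_lt_d9
      have h4 : (k : ℝ) ≤ 15 * t + 14 := by exact_mod_cast htk
      have h5 : (4 : ℝ) ≤ t := by exact_mod_cast ht4
      have h6 : (k : ℝ) * Real.log 2 ≤ (15 * t + 14) * 0.6931471808 :=
        mul_le_mul h4 h3.le (Real.log_nonneg (by norm_num)) (by positivity)
      push_cast at h1 ⊢
      norm_num at h1 h6 ⊢
      linarith
    · intro R hR hRk
      -- `R ^ 4 ≤ 2 ^ (t + 1)`
      have h1 : R ^ 4 ≤ 2 ^ (t + 1) := by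
        have h2 : (R ^ 4) ^ 15 ≤ (2 ^ (t + 1)) ^ 15 := by
          rw [← pow_mul, ← pow_mul]
          exact hRk.trans (Nat.pow_le_pow_right (by norm_num) (by omega))
        exact (Nat.pow_le_pow_iff_left (by norm_num)).mp h2
      have h1' : (R : ℝ) ^ 4 ≤ 2 ^ (t + 1) := by exact_mod_cast h1
      have key : ∀ u : ℕ, 4 ≤ u → (1024 * (15 * (u : ℝ) + 14) ^ 3) ^ 2 * 2 ^ (u + 1) ≤ (5 / 3) ^ (28 * u - 22) := by
        intro u hu
        induction u, hu using Nat.le_induction with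
        | base => norm_num
        | succ u hu ih =>
          have e1 : 28 * (u + 1) - 22 = (28 * u - 22) + 28 := by omega
          rw [e1, pow_add (5 / 3 : ℝ)]
          have hu' : (4 : ℝ) ≤ u := by exact_mod_cast hu
          have e2 : 15 * ((u + 1 : ℕ) : ℝ) + 14 ≤ 2 * (15 * u + 14) := by push_cast; linarith
          calc (1024 * (15 * ((u + 1 : ℕ) : ℝ) + 14) ^ 3) ^ 2 * 2 ^ (u + 1 + 1)
              ≤ (1024 * (2 * (15 * (u : ℝ) + 14)) ^ 3) ^ 2 * 2 ^ (u + 1 + 1) := by gcongr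
            _ = ((1024 * (15 * (u : ℝ) + 14) ^ 3) ^ 2 * 2 ^ (u + 1)) * 128 := by ring
            _ ≤ (5 / 3) ^ (28 * u - 22) * (5 / 3) ^ 28 := by
                refine mul_le_mul ih (by norm_num) (by norm_num) (by positivity)
      have h2 := key t ht4
      have h3 : (((k - 3 : ℕ) : ℝ) + 1) ≤ 15 * t + 14 := by
        have : k - 3 + 1 ≤ 15 * t + 14 := by omega
        exact_mod_cast this
      have h3' : ((k - 3 : ℕ) : ℝ) ≤ 15 * t + 14 := by linarith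
      have h4 : (3 / 5 : ℝ) ^ (k - 11 - t) ≤ (3 / 5) ^ (14 * t - 11) :=
        pow_le_pow_of_le_one (by norm_num) (by norm_num) (by omega)
      set y := 1024 * (((k - 3 : ℕ) : ℝ) + 1) * ((k - 3 : ℕ) : ℝ) ^ 2 * (3 / 5) ^ (k - 11 - t) * R ^ 2 with hy
      have hy0 : 0 ≤ y := by positivity
      have h5 : y ^ 2 ≤ 1 := by
        have h6 : y ≤ (1024 * (15 * (t : ℝ) + 14) ^ 3) * (3 / 5) ^ (14 * t - 11) * R ^ 2 := by
          rw [hy]
          calc _ ≤ 1024 * (15 * (t : ℝ) + 14) * (15 * (t : ℝ) + 14) ^ 2 * (3 / 5) ^ (14 * t - 11) * R ^ 2 := by gcongr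
            _ = _ := by ring
        calc y ^ 2 ≤ ((1024 * (15 * (t : ℝ) + 14) ^ 3) * (3 / 5) ^ (14 * t - 11) * R ^ 2) ^ 2 := by gcongr
          _ = (1024 * (15 * (t : ℝ) + 14) ^ 3) ^ 2 * R ^ 4 * ((3 / 5) ^ (14 * t - 11)) ^ 2 := by ring
          _ ≤ (1024 * (15 * (t : ℝ) + 14) ^ 3) ^ 2 * 2 ^ (t + 1) * ((3 / 5) ^ (14 * t - 11)) ^ 2 := by gcongr
          _ ≤ (5 / 3) ^ (28 * t - 22) * ((3 / 5) ^ (14 * t - 11)) ^ 2 := by gcongr
          _ = 1 := by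
              rw [← pow_mul, show (14 * t - 11) * 2 = 28 * t - 22 by omega, ← mul_pow]
              norm_num
      nlinarith

/-- all large `k`. -/
theorem large_k : ∃ k0 : ℕ, ∀ k : ℕ, k0 ≤ k →
    ∃ a : Fin k → ℤ, ¬ RadoCondition a ∧ (∃ r, Bound a r) ∧ 2 ^ k < c a ^ 7 := by
  -- polynomial against geometric
  have hlim : Tendsto (fun t : ℕ => (t : ℝ) ^ 21 * (16 * (16 / 25) ^ 7) ^ t) atTop (nhds 0) :=
    tendsto_pow_const_mul_const_pow_of_abs_lt_one 21 (by rw [abs_of_nonneg] <;> norm_num)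
  obtain ⟨c0, hc0⟩ : ∃ c0 : ℝ, c0 = 4 * (1024 * 64 * (25 / 16) ^ 7) ^ 7 := ⟨_, rfl⟩
  have hc0pos : 0 < c0 := by rw [hc0]; positivity
  have hev := hlim.eventually (gt_mem_nhds (show (0 : ℝ) < 1 / c0 by positivity))
  obtain ⟨t0, ht0⟩ := eventually_atTop.mp hev
  refine ⟨2 * t0 + 1000, fun k hk => ?_⟩
  obtain ⟨t, ht⟩ : ∃ t, t = k / 2 := ⟨_, rfl⟩
  have htt : t0 ≤ t := by omega
  have ht500 : 500 ≤ t := by omega
  have htk : k ≤ 2 * t + 1 := by omega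
  refine of_numeric (C := 7) (n := k - 3) (m := t) (d := t - 7) (δ := 16 / 25) (by norm_num) (by omega)
    (by omega) (by omega) (by norm_num) (by norm_num) ?_ ?_
  · intro R hR hRk
    have h1 := log_le_of_pow hR hRk
    have hRr : (0 : ℝ) < R := by exact_mod_cast hR
    rw [← Real.log_lt_iff_lt_exp (by positivity), Real.log_mul (by norm_num) hRr.ne']
    have h2 := log_three_halves
    have h3 := Real.log_two_lt_d9
    have h4 : (k : ℝ) ≤ 2 * t + 1 := by exact_mod_cast htk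
    have h5 : (500 : ℝ) ≤ t := by exact_mod_cast ht500
    have h6 : (k : ℝ) * Real.log 2 ≤ (2 * t + 1) * 0.6931471808 :=
      mul_le_mul h4 h3.le (Real.log_nonneg (by norm_num)) (by positivity)
    push_cast at h1 ⊢
    norm_num at h1 h6 ⊢
    linarith
  · intro R hR hRk
    have h7 : ((R : ℝ) ^ 2) ^ 7 ≤ 4 * 16 ^ t := by
      have e1 : (R ^ 2) ^ 7 ≤ 4 * 16 ^ t := by
        calc (R ^ 2) ^ 7 = (R ^ 7) ^ 2 := by ring
          _ ≤ (2 ^ k) ^ 2 := Nat.pow_le_pow_left hRk 2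
          _ ≤ (2 ^ (2 * t + 1)) ^ 2 := Nat.pow_le_pow_left (Nat.pow_le_pow_right (by norm_num) htk) 2
          _ = 4 * 16 ^ t := by
              rw [← pow_mul, show (2 * t + 1) * 2 = 4 * t + 2 by ring, pow_add, pow_mul]
              norm_num
              ring
      exact_mod_cast e1
    have h8 := ht0 t htt
    have h5 : (500 : ℝ) ≤ t := by exact_mod_cast ht500
    have hn1 : (((k - 3 : ℕ) : ℝ) + 1) ≤ 4 * t := by
      have : k - 3 + 1 ≤ 4 * t := by omega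
      exact_mod_cast this
    have hn2 : ((k - 3 : ℕ) : ℝ) ≤ 4 * t := by linarith
    set y := 1024 * (((k - 3 : ℕ) : ℝ) + 1) * ((k - 3 : ℕ) : ℝ) ^ 2 * (16 / 25) ^ (t - 7) * R ^ 2 with hy
    have hy0 : 0 ≤ y := by positivity
    have e2 : ((16 : ℝ) / 25) ^ (t - 7) = (25 / 16) ^ 7 * (16 / 25) ^ t := by
      have e3 : ((16 : ℝ) / 25) ^ t = (16 / 25) ^ (t - 7) * (16 / 25) ^ 7 := by
        rw [← pow_add]; congr 1; omega
      rw [e3]
      have e4 : ((25 : ℝ) / 16) ^ 7 * (16 / 25) ^ 7 = 1 := by rw [← mul_pow]; norm_num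
      calc ((16 : ℝ) / 25) ^ (t - 7) = (16 / 25) ^ (t - 7) * 1 := by ring
        _ = (16 / 25) ^ (t - 7) * ((25 / 16) ^ 7 * (16 / 25) ^ 7) := by rw [e4]
        _ = _ := by ring
    have e5 : ((t : ℝ) ^ 3 * (16 / 25) ^ t * R ^ 2) ^ 7 = (t : ℝ) ^ 21 * ((16 / 25) ^ 7) ^ t * (R ^ 2) ^ 7 := by
      rw [mul_pow, mul_pow ((t : ℝ) ^ 3), ← pow_mul (t : ℝ) 3 7, ← pow_mul ((16 : ℝ) / 25) t 7, mul_comm t 7,
        pow_mul ((16 : ℝ) / 25) 7 t]
    have h9 : y ^ 7 ≤ 1 := by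
      have h10 : y ≤ (1024 * 64 * (25 / 16) ^ 7) * ((t : ℝ) ^ 3 * (16 / 25) ^ t * R ^ 2) := by
        rw [hy, e2]
        calc _ ≤ 1024 * (4 * (t : ℝ)) * (4 * t) ^ 2 * ((25 / 16) ^ 7 * (16 / 25) ^ t) * R ^ 2 := by gcongr
          _ = _ := by ring
      calc y ^ 7 ≤ ((1024 * 64 * (25 / 16) ^ 7) * ((t : ℝ) ^ 3 * (16 / 25) ^ t * R ^ 2)) ^ 7 := by gcongr
        _ = (1024 * 64 * (25 / 16) ^ 7) ^ 7 * ((t : ℝ) ^ 21 * ((16 / 25) ^ 7) ^ t * (R ^ 2) ^ 7) := by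
            rw [mul_pow (1024 * 64 * (25 / 16) ^ 7 : ℝ), e5]
        _ ≤ (1024 * 64 * (25 / 16) ^ 7) ^ 7 * ((t : ℝ) ^ 21 * ((16 / 25) ^ 7) ^ t * (4 * 16 ^ t)) := by gcongr
        _ = c0 * ((t : ℝ) ^ 21 * (16 * (16 / 25) ^ 7) ^ t) := by
            rw [hc0, mul_pow (16 : ℝ) ((16 / 25) ^ 7) t]
            ring
        _ ≤ c0 * (1 / c0) := mul_le_mul_of_nonneg_left h8.le hc0pos.le
        _ = 1 := by field_simp
    by_contra hcon
    push Not at hcon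
    have := one_lt_pow₀ hcon (n := 7) (by norm_num)
    linarith

end Pool.Agent.RadoE
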