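import Mathlib

/-!
# Density increment: a cell on which a set is uniform
-/

namespace Pool.Agent.RadoE

open Finset

/-- the number of elements of `A` in the progression `c + L^j t`, `t < w`. -/
noncomputable def cnt (A : ℕ → Prop) (c D w : ℕ) : ℕ := by
  classical
  exact ((range w).filter (fun t => A (c + D * t))).card

lemma cnt_le (A : ℕ → Prop) (c D w : ℕ) : cnt A c D w ≤ w := by
  classical
  unfold cnt
  exact (Finset.card_filter_le _ _).trans (by simp)

/-- a cell of density at least `α` on which no sub-cell has density larger than `1 + η` times the density of the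
cell. -/
theorem exists_cell (A : ℕ → Prop) {K L v M X : ℕ} (hK : 0 < K) (hL : 0 < L) (hv : 0 < v) {α η : ℝ} (hη : 0 ≤ η)
    (hM : 1 < α * (1 + η) ^ (M + 1)) (hX : X = (K * L) ^ (M + 1) * v)
    (h0 : α * X ≤ cnt A X 1 X) :
    ∃ j ≤ M, ∃ c : ℕ, X ≤ c ∧ c < 2 * X ∧ ∃ β : ℝ, α ≤ β ∧
      (cnt A c (L ^ j) (K * (L * ((K * L) ^ (M - j) * v))) : ℝ) =
        β * (K * (L * ((K * L) ^ (M - j) * v)) : ℕ) ∧
      ∀ κ < K, ∀ r < L, (cnt A (c + L ^ j * (κ * (L * ((K * L) ^ (M - j) * v)) + r)) (L ^ (j + 1))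
        ((K * L) ^ (M - j) * v) : ℝ) ≤ (1 + η) * β * ((K * L) ^ (M - j) * v : ℕ) := by
  classical
  by_contra hcon
  push Not at hcon
  have hα : 0 < α := by
    by_contra h
    have h2 : α * (1 + η) ^ (M + 1) ≤ 0 := mul_nonpos_of_nonpos_of_nonneg (not_lt.mp h) (by positivity)
    linarith
  -- the width of level `j`
  have key : ∀ j, j ≤ M + 1 → ∃ c : ℕ, X ≤ c ∧ c + L ^ j * ((K * L) ^ (M + 1 - j) * v - 1) < 2 * X ∧
      α * (1 + η) ^ j * ((K * L) ^ (M + 1 - j) * v : ℕ) ≤ cnt A c (L ^ j) ((K * L) ^ (M + 1 - j) * v) := by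
    intro j
    induction j with
    | zero =>
      intro _
      have hX0 : 0 < X := by rw [hX]; positivity
      refine ⟨X, le_rfl, ?_, ?_⟩
      · simp only [pow_zero, one_mul, Nat.sub_zero]
        rw [← hX]
        omega
      · simp only [pow_zero, mul_one, Nat.sub_zero]
        rw [← hX]
        exact h0
    | succ j ih =>
      intro hj
      obtain ⟨c, hc1, hc2, hc3⟩ := ih (by omega)
      have hw : (K * L) ^ (M + 1 - j) * v = K * (L * ((K * L) ^ (M - j) * v)) := by
        rw [show M + 1 - j = (M - j) + 1 by omega, pow_succ]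
        ring
      rw [hw] at hc2 hc3
      have hpos : 0 < (K * L) ^ (M - j) * v := by positivity
      set v' := (K * L) ^ (M - j) * v with hv'
      have hposw : 0 < K * (L * v') := by positivity
      set β : ℝ := (cnt A c (L ^ j) (K * (L * v')) : ℝ) / (K * (L * v') : ℕ) with hβ
      have hposw' : (0 : ℝ) < (K * (L * v') : ℕ) := by exact_mod_cast hposw
      have hβ1 : (cnt A c (L ^ j) (K * (L * v')) : ℝ) = β * (K * (L * v') : ℕ) := by
        rw [hβ, div_mul_cancel₀ _ hposw'.ne']
      have hβ2 : α * (1 + η) ^ j ≤ β := by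
        rw [hβ, le_div_iff₀ hposw']
        exact hc3
      have hβ3 : α ≤ β := by
        refine le_trans ?_ hβ2
        have h1 : (1 : ℝ) ≤ (1 + η) ^ j := one_le_pow₀ (by linarith)
        nlinarith
      have hLj : 0 < L ^ j := by positivity
      have hc4 : c < 2 * X := by omega
      obtain ⟨κ, hκ, r, hr, hlt⟩ := hcon j (by omega) c hc1 hc4 β hβ3 hβ1
      refine ⟨c + L ^ j * (κ * (L * v') + r), by omega, ?_, ?_⟩
      · rw [show M + 1 - (j + 1) = M - j by omega, ← hv']
        have h2 : L ^ j * (κ * (L * v') + r) + L ^ (j + 1) * (v' - 1) ≤ L ^ j * (K * (L * v') - 1) := by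
          have h3 : L ^ (j + 1) * (v' - 1) = L ^ j * (L * (v' - 1)) := by rw [pow_succ]; ring
          rw [h3, ← mul_add]
          refine Nat.mul_le_mul_left _ ?_
          have h4 : (κ + 1) * (L * v') ≤ K * (L * v') := Nat.mul_le_mul_right _ hκ
          have h5 : L * (v' - 1) = L * v' - L := by rw [Nat.mul_sub, mul_one]
          have h6 : L ≤ L * v' := Nat.le_mul_of_pos_right _ hpos
          rw [h5]
          have h7 : (κ + 1) * (L * v') = κ * (L * v') + L * v' := by ring
          omega
        omega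
      · rw [show M + 1 - (j + 1) = M - j by omega, ← hv']
        refine le_trans ?_ hlt.le
        have h8 : α * (1 + η) ^ (j + 1) ≤ (1 + η) * β := by
          rw [pow_succ]
          nlinarith
        exact mul_le_mul_of_nonneg_right h8 (by positivity)
  obtain ⟨c, _, _, hc3⟩ := key (M + 1) le_rfl
  have h1 := cnt_le A c (L ^ (M + 1)) ((K * L) ^ (M + 1 - (M + 1)) * v)
  rw [Nat.sub_self, pow_zero, one_mul] at hc3 h1
  have h2 : (cnt A c (L ^ (M + 1)) v : ℝ) ≤ v := by exact_mod_cast h1
  have hv' : (0 : ℝ) < v := by exact_mod_cast hv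
  have h3 : (v : ℝ) < α * (1 + η) ^ (M + 1) * v := by nlinarith
  linarith

/-- pigeonhole: some colour class is dense in `[X, 2 X)`. -/
lemma exists_dense {r X : ℕ} (χ : ℕ → Fin r) (hX : 0 < X) :
    ∃ col : Fin r, (1 / (r : ℝ)) * X ≤ cnt (fun x => χ x = col) X 1 X := by
  classical
  have hr : 0 < r := Fin.pos (χ 0)
  have : Nonempty (Fin r) := ⟨χ 0⟩
  by_contra hcon
  push Not at hcon
  have h1 : ∑ col : Fin r, (cnt (fun x => χ x = col) X 1 X : ℝ) < ∑ _col : Fin r, (1 / (r : ℝ)) * X :=
    Finset.sum_lt_sum_of_nonempty Finset.univ_nonempty fun col _ => hcon col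
  have h2 : ∑ col : Fin r, cnt (fun x => χ x = col) X 1 X = X := by
    unfold cnt
    have h3 := Finset.card_eq_sum_card_fiberwise (s := range X) (t := (Finset.univ : Finset (Fin r)))
      (f := fun t => χ (X + 1 * t)) (fun t _ => by simp)
    rw [card_range] at h3
    convert h3.symm
  rw [Finset.sum_const, Finset.card_univ, Fintype.card_fin, nsmul_eq_mul] at h1
  have h4 : (r : ℝ) * (1 / (r : ℝ) * X) = X := by
    have : (r : ℝ) ≠ 0 := by positivity
    field_simp
  rw [h4] at h1
  have h5 : (∑ col : Fin r, (cnt (fun x => χ x = col) X 1 X : ℝ)) = X := by exact_mod_cast h2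
  linarith

end Pool.Agent.RadoE
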