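import Pool.Agent.RadoE.Basic

/-!
# Large values of an exponential sum at independent points
-/

namespace Pool.Agent.RadoE

open Finset

/-- the coefficients of the expanded Riesz product. -/
noncomputable def gam (c : ℂ) (lam : ℝ) (j : ℤ) : ℂ :=
  if j = 0 then 1 else if j = 1 then (lam / 2 : ℝ) * c else (lam / 2 : ℝ) * (starRingEnd ℂ) c

lemma norm_gam_le {c : ℂ} (hc : ‖c‖ ≤ 1) {lam : ℝ} (h0 : 0 ≤ lam) (h1 : lam ≤ 1) (j : ℤ) :
    ‖gam c lam j‖ ≤ 1 := by
  unfold gam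
  have h2 : ‖((lam / 2 : ℝ) : ℂ)‖ ≤ 1 := by
    rw [Complex.norm_real, Real.norm_eq_abs, abs_of_nonneg (by positivity)]
    linarith
  split_ifs
  · simp
  · rw [norm_mul]
    exact mul_le_one₀ h2 (norm_nonneg _) hc
  · rw [norm_mul]
    refine mul_le_one₀ h2 (norm_nonneg _) ?_
    simpa using hc

lemma factor_eq (c : ℂ) (lam x : ℝ) :
    ((1 + lam * (c * e x).re : ℝ) : ℂ) =
      ∑ j ∈ ({-1, 0, 1} : Finset ℤ), gam c lam j * e (j * x) := by
  have h1 : (((c * e x).re : ℝ) : ℂ) = (c * e x + (starRingEnd ℂ) (c * e x)) / 2 :=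
    Complex.re_eq_add_conj _
  have g0 : gam c lam 0 = 1 := by unfold gam; rw [if_pos rfl]
  have g1 : gam c lam 1 = (lam / 2 : ℝ) * c := by unfold gam; rw [if_neg (by decide), if_pos rfl]
  have g2 : gam c lam (-1) = (lam / 2 : ℝ) * (starRingEnd ℂ) c := by
    unfold gam; rw [if_neg (by decide), if_neg (by decide)]
  rw [Finset.sum_insert (by decide), Finset.sum_insert (by decide), Finset.sum_singleton, g0, g1, g2]
  push_cast
  rw [h1, map_mul, ← e_neg, zero_mul, e_zero, one_mul, show ((-1 : ℝ) * x) = -x by ring]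
  ring_nf

/-- the sum of a Riesz product. -/
theorem riesz {ι : Type*} [Fintype ι] [DecidableEq ι] (θ : ι → ℝ) (c : ι → ℂ) (hc : ∀ i, ‖c i‖ ≤ 1) {lam : ℝ}
    (h0 : 0 ≤ lam) (h1 : lam ≤ 1) (I : Finset ι) (w : ℕ) {ρ : ℝ} (hρ : 0 < ρ)
    (h : ∀ ε : ι → ℤ, (∀ i, ε i = -1 ∨ ε i = 0 ∨ ε i = 1) → (∀ i, i ∉ I → ε i = 0) → ε ≠ 0 →
      ∀ m : ℤ, ρ ≤ |∑ i, ε i * θ i - m|) :
    ∑ t ∈ range w, ∏ i ∈ I, (1 + lam * (c i * e (t * θ i)).re) ≤ w + 3 ^ (Fintype.card ι) / (2 * ρ) := by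
  set T : ι → Finset ℤ := fun i => if i ∈ I then {-1, 0, 1} else {0} with hT
  have hexp : ∀ t : ℕ, ((∏ i ∈ I, (1 + lam * (c i * e (t * θ i)).re) : ℝ) : ℂ) =
      ∑ ε ∈ Fintype.piFinset T, (∏ i, gam (c i) lam (ε i)) * e (t * ∑ i, ε i * θ i) := by
    intro t
    have e1 : ((∏ i ∈ I, (1 + lam * (c i * e (t * θ i)).re) : ℝ) : ℂ) =
        ∏ i, ∑ j ∈ T i, gam (c i) lam j * e (j * (t * θ i)) := by
      rw [Complex.ofReal_prod, ← Finset.prod_subset (Finset.subset_univ I) (f := fun i =>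
        ∑ j ∈ T i, gam (c i) lam j * e (j * (t * θ i)))]
      · refine Finset.prod_congr rfl fun i hi => ?_
        rw [factor_eq]
        simp only [hT, if_pos hi]
      · intro i _ hi
        simp only [hT, if_neg hi, Finset.sum_singleton, gam, if_true]
        simp [e_zero]
    rw [e1, Finset.prod_univ_sum]
    refine Finset.sum_congr rfl fun ε _ => ?_
    rw [Finset.prod_mul_distrib, ← e_sum]
    congr 2
    rw [Finset.mul_sum]
    exact Finset.sum_congr rfl fun i _ => by ring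
  have hsum : ((∑ t ∈ range w, ∏ i ∈ I, (1 + lam * (c i * e (t * θ i)).re) : ℝ) : ℂ) =
      ∑ ε ∈ Fintype.piFinset T, (∏ i, gam (c i) lam (ε i)) * ∑ t ∈ range w, e (t * ∑ i, ε i * θ i) := by
    rw [Complex.ofReal_sum, Finset.sum_congr rfl fun t _ => hexp t, Finset.sum_comm]
    exact Finset.sum_congr rfl fun ε _ => by rw [Finset.mul_sum]
  have hmem : (0 : ι → ℤ) ∈ Fintype.piFinset T := by
    rw [Fintype.mem_piFinset]
    intro i
    simp only [hT]
    split_ifs <;> simp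
  have hcard : ((Fintype.piFinset T).card : ℝ) ≤ 3 ^ (Fintype.card ι) := by
    rw [Fintype.card_piFinset]
    have : ∏ i, (T i).card ≤ ∏ _i : ι, 3 := by
      refine Finset.prod_le_prod' fun i _ => ?_
      simp only [hT]
      split_ifs
      · decide
      · decide
    rw [Finset.prod_const, Finset.card_univ] at this
    exact_mod_cast this
  have hbound : ∀ ε ∈ (Fintype.piFinset T).erase 0,
      ‖(∏ i, gam (c i) lam (ε i)) * ∑ t ∈ range w, e (t * ∑ i, ε i * θ i)‖ ≤ 1 / (2 * ρ) := by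
    intro ε hε
    rw [Finset.mem_erase, Fintype.mem_piFinset] at hε
    obtain ⟨hne, hε⟩ := hε
    rw [norm_mul, norm_prod]
    have g1 : ∏ i, ‖gam (c i) lam (ε i)‖ ≤ 1 :=
      Finset.prod_le_one (fun i _ => norm_nonneg _) fun i _ => norm_gam_le (hc i) h0 h1 _
    have g2 : ‖∑ t ∈ range w, e (t * ∑ i, ε i * θ i)‖ ≤ 1 / (2 * ρ) := by
      refine norm_geom_le w hρ (h ε (fun i => ?_) (fun i hi => ?_) hne)
      · have := hε i
        simp only [hT] at this
        split_ifs at this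
        · simpa using this
        · right; left; simpa using this
      · have := hε i
        simp only [hT, if_neg hi] at this
        simpa using this
    calc _ ≤ 1 * (1 / (2 * ρ)) := mul_le_mul g1 g2 (norm_nonneg _) zero_le_one
      _ = _ := one_mul _
  have key : ‖((∑ t ∈ range w, ∏ i ∈ I, (1 + lam * (c i * e (t * θ i)).re) : ℝ) : ℂ)‖ ≤
      w + 3 ^ (Fintype.card ι) / (2 * ρ) := by
    rw [hsum, ← Finset.add_sum_erase _ _ hmem]
    refine (norm_add_le _ _).trans (add_le_add ?_ ?_)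
    · simp [gam, e_zero]
    · refine (norm_sum_le _ _).trans ((Finset.sum_le_sum hbound).trans ?_)
      rw [Finset.sum_const, nsmul_eq_mul]
      have h3 : (((Fintype.piFinset T).erase 0).card : ℝ) ≤ 3 ^ (Fintype.card ι) :=
        le_trans (by exact_mod_cast Finset.card_le_card (Finset.erase_subset _ _)) hcard
      calc _ ≤ (3 : ℝ) ^ (Fintype.card ι) * (1 / (2 * ρ)) := mul_le_mul_of_nonneg_right h3 (by positivity)
        _ = _ := by ring
  rw [Complex.norm_real, Real.norm_eq_abs] at key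
  exact (le_abs_self _).trans key

/-- convexity of the exponential function. -/
lemma exp_mul_le {lam u : ℝ} (h : |u| ≤ 1) :
    Real.exp (lam * u) ≤ Real.cosh lam * (1 + Real.tanh lam * u) := by
  obtain ⟨h1, h2⟩ := abs_le.mp h
  have hc := convexOn_exp.2 (Set.mem_univ lam) (Set.mem_univ (-lam)) (show 0 ≤ (1 + u) / 2 by linarith)
    (show 0 ≤ (1 - u) / 2 by linarith) (by ring)
  simp only [smul_eq_mul] at hc
  have e1 : (1 + u) / 2 * lam + (1 - u) / 2 * -lam = lam * u := by ring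
  rw [e1] at hc
  refine hc.trans (le_of_eq ?_)
  have hpos := Real.cosh_pos lam
  rw [Real.tanh_eq_sinh_div_cosh, mul_add, mul_one, ← mul_assoc, mul_div_cancel₀ _ hpos.ne',
    Real.cosh_eq, Real.sinh_eq]
  ring

/-- the number of large values at independent points: `|I| ≤ 2 log (2 / β) / δ²`. -/
theorem large_values {ι : Type*} [Fintype ι] [DecidableEq ι] (θ : ι → ℝ) (I : Finset ι) (w : ℕ) {ρ : ℝ}
    (hρ : 0 < ρ) (h : ∀ ε : ι → ℤ, (∀ i, ε i = -1 ∨ ε i = 0 ∨ ε i = 1) → (∀ i, i ∉ I → ε i = 0) → ε ≠ 0 →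
      ∀ m : ℤ, ρ ≤ |∑ i, ε i * θ i - m|) (f : ℕ → ℝ) (hf0 : ∀ t, 0 ≤ f t) (hf1 : ∀ t, f t ≤ 1) {B δ : ℝ}
    (_hB : 0 < B) (hsum : ∑ t ∈ range w, f t = B) (hδ : 0 ≤ δ)
    (hI : ∀ i ∈ I, δ * B ≤ ‖F f w (θ i)‖) :
    Real.exp (δ ^ 2 * I.card / 2) * B ≤ w + 3 ^ (Fintype.card ι) / (2 * ρ) := by
  -- the unit factors
  set c : ι → ℂ := fun i => if F f w (θ i) = 0 then 1 else (starRingEnd ℂ) (F f w (θ i)) / ‖F f w (θ i)‖ with hc
  have hc1 : ∀ i, ‖c i‖ ≤ 1 := by
    intro i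
    simp only [hc]
    split_ifs with h0
    · simp
    · rw [norm_div, RCLike.norm_conj, Complex.norm_real, norm_norm, div_self (norm_ne_zero_iff.mpr h0)]
  have hc2 : ∀ i, (c i * F f w (θ i)) = (‖F f w (θ i)‖ : ℂ) := by
    intro i
    simp only [hc]
    split_ifs with h0
    · rw [h0]; simp
    · have h1 : (‖F f w (θ i)‖ : ℂ) ≠ 0 := by exact_mod_cast norm_ne_zero_iff.mpr h0
      rw [div_mul_eq_mul_div, div_eq_iff h1, mul_comm, Complex.mul_conj, Complex.normSq_eq_norm_sq]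
      push_cast
      ring
  set u : ι → ℕ → ℝ := fun i t => (c i * e (t * θ i)).re with hu
  have hu1 : ∀ i t, |u i t| ≤ 1 := by
    intro i t
    refine (Complex.abs_re_le_norm _).trans ?_
    rw [norm_mul, norm_e, mul_one]
    exact hc1 i
  have hu2 : ∀ i, ∑ t ∈ range w, f t * u i t = ‖F f w (θ i)‖ := by
    intro i
    have e1 : ((‖F f w (θ i)‖ : ℝ) : ℂ) = ∑ t ∈ range w, (f t : ℂ) * (c i * e (t * θ i)) := by
      rw [← hc2, F, Finset.mul_sum]
      exact Finset.sum_congr rfl fun t _ => by ring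
    have e2 := congrArg Complex.re e1
    rw [Complex.ofReal_re, Complex.re_sum] at e2
    rw [e2]
    refine Finset.sum_congr rfl fun t _ => ?_
    simp only [hu]
    rw [Complex.re_ofReal_mul]
  -- upper bound
  set lam := δ with hlam
  have ht0 : 0 ≤ Real.tanh lam := by
    rw [Real.tanh_eq_sinh_div_cosh]
    exact div_nonneg (Real.sinh_nonneg_iff.mpr hδ) (Real.cosh_pos _).le
  have ht1 : Real.tanh lam ≤ 1 := (Real.tanh_lt_one lam).le
  have hR := riesz θ c hc1 ht0 ht1 I w hρ h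
  have hpt : ∀ t, Real.exp (lam * ∑ i ∈ I, u i t) ≤
      Real.exp (lam ^ 2 / 2 * I.card) * ∏ i ∈ I, (1 + Real.tanh lam * u i t) := by
    intro t
    rw [Finset.mul_sum, Real.exp_sum]
    have e1 : ∏ i ∈ I, Real.exp (lam * u i t) ≤ ∏ i ∈ I, Real.cosh lam * (1 + Real.tanh lam * u i t) :=
      Finset.prod_le_prod (fun i _ => (Real.exp_pos _).le) fun i _ => exp_mul_le (hu1 i t)
    refine e1.trans ?_
    rw [Finset.prod_mul_distrib, Finset.prod_const]
    refine mul_le_mul_of_nonneg_right ?_ ?_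
    · calc Real.cosh lam ^ I.card ≤ (Real.exp (lam ^ 2 / 2)) ^ I.card :=
          pow_le_pow_left₀ (Real.cosh_pos _).le (Real.cosh_le_exp_half_sq _) _
        _ = _ := by rw [← Real.exp_nat_mul]; ring_nf
    · refine Finset.prod_nonneg fun i _ => ?_
      have h3 := (abs_le.mp (hu1 i t)).1
      nlinarith
  -- lower bound
  set z : ℝ := lam * (δ * I.card) with hz
  have hlow : Real.exp z * B ≤ ∑ t ∈ range w, f t * Real.exp (lam * ∑ i ∈ I, u i t) := by
    have e1 : ∀ t ∈ range w, f t * (Real.exp z * (1 + (lam * ∑ i ∈ I, u i t - z))) ≤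
        f t * Real.exp (lam * ∑ i ∈ I, u i t) := by
      intro t _
      refine mul_le_mul_of_nonneg_left ?_ (hf0 t)
      have h4 := Real.add_one_le_exp (lam * ∑ i ∈ I, u i t - z)
      calc Real.exp z * (1 + (lam * ∑ i ∈ I, u i t - z)) ≤ Real.exp z * Real.exp (lam * ∑ i ∈ I, u i t - z) :=
          mul_le_mul_of_nonneg_left (by linarith) (Real.exp_pos _).le
        _ = _ := by rw [← Real.exp_add]; ring_nf
    refine le_trans ?_ (Finset.sum_le_sum e1)
    have e2 : ∑ t ∈ range w, f t * (Real.exp z * (1 + (lam * ∑ i ∈ I, u i t - z))) =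
        Real.exp z * (B + (lam * ∑ i ∈ I, ‖F f w (θ i)‖ - z * B)) := by
      have e3 : ∑ i ∈ I, ‖F f w (θ i)‖ = ∑ t ∈ range w, f t * ∑ i ∈ I, u i t := by
        rw [Finset.sum_congr rfl fun i _ => (hu2 i).symm, Finset.sum_comm]
        exact Finset.sum_congr rfl fun t _ => by rw [Finset.mul_sum]
      rw [e3, ← hsum, Finset.mul_sum, Finset.mul_sum, ← Finset.sum_sub_distrib, ← Finset.sum_add_distrib,
        Finset.mul_sum]
      exact Finset.sum_congr rfl fun t _ => by ring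
    rw [e2]
    refine mul_le_mul_of_nonneg_left ?_ (Real.exp_pos _).le
    have e4 : (I.card : ℝ) * (δ * B) ≤ ∑ i ∈ I, ‖F f w (θ i)‖ := by
      rw [← nsmul_eq_mul]
      exact Finset.card_nsmul_le_sum _ _ _ hI
    have e5 : z * B ≤ lam * ∑ i ∈ I, ‖F f w (θ i)‖ := by
      rw [hz]
      calc lam * (δ * I.card) * B = lam * ((I.card : ℝ) * (δ * B)) := by ring
        _ ≤ _ := mul_le_mul_of_nonneg_left e4 hδ
    linarith
  have hup : ∑ t ∈ range w, f t * Real.exp (lam * ∑ i ∈ I, u i t) ≤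
      Real.exp (lam ^ 2 / 2 * I.card) * (w + 3 ^ (Fintype.card ι) / (2 * ρ)) := by
    calc _ ≤ ∑ t ∈ range w, Real.exp (lam ^ 2 / 2 * I.card) * ∏ i ∈ I, (1 + Real.tanh lam * u i t) := by
          refine Finset.sum_le_sum fun t _ => ?_
          have h5 : f t * Real.exp (lam * ∑ i ∈ I, u i t) ≤ 1 * Real.exp (lam * ∑ i ∈ I, u i t) :=
            mul_le_mul_of_nonneg_right (hf1 t) (Real.exp_pos _).le
          rw [one_mul] at h5
          exact h5.trans (hpt t)
      _ = Real.exp (lam ^ 2 / 2 * I.card) * ∑ t ∈ range w, ∏ i ∈ I, (1 + Real.tanh lam * u i t) := by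
          rw [Finset.mul_sum]
      _ ≤ _ := mul_le_mul_of_nonneg_left hR (Real.exp_pos _).le
  have hfin := hlow.trans hup
  have e6 : Real.exp z = Real.exp (lam ^ 2 / 2 * I.card) * Real.exp (δ ^ 2 * I.card / 2) := by
    rw [← Real.exp_add]
    congr 1
    rw [hz, hlam]
    ring
  rw [e6, mul_assoc] at hfin
  exact le_of_mul_le_mul_left hfin (Real.exp_pos _)

end Pool.Agent.RadoE
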