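import Pool.Agent.RadoE.Circle
import Pool.Agent.RadoE.Incr

/-!
# The main theorem, with parameters
-/

namespace Pool.Agent.RadoE

open Finset

lemma sum_coef_eq {n : ℕ} (a : Fin n → ℕ) (S : ℕ) : ∑ i, coef a S i = S := by
  have := sum_coef a S (fun _ => 1)
  simp only [mul_one] at this
  rw [this]
  push_cast
  ring

/-- the tuple for at most `R0` colours. -/
theorem main_large {n R0 m d : ℕ} (hn : 0 < n) (hR0 : 0 < R0) (hmd : m + d + 4 ≤ n) {δ : ℝ} (hδ0 : 0 ≤ δ)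
    (hδ1 : δ ≤ 1) (hm : 3 / 2 * (R0 : ℝ) < Real.exp (δ ^ 2 * m / 2))
    (H2 : 1024 * ((n : ℝ) + 1) * n ^ 2 * δ ^ d * R0 ^ 2 ≤ 1) :
    ∃ a : Fin (n + 3) → ℤ, (∀ I : Finset (Fin (n + 3)), I.Nonempty → ∑ i ∈ I, a i ≠ 0) ∧
      ∀ r ≤ R0, ∀ χ : ℕ → Fin r, ∃ x : Fin (n + 3) → ℕ, (∀ i, 0 < x i) ∧ (∀ i j, χ (x i) = χ (x j)) ∧
        ∑ i, a i * (x i : ℤ) = 0 := by
  classical
  set Q := QQ n with hQ
  set L := Q.factorial with hL
  have hL0 : 0 < L := Nat.factorial_pos _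
  obtain ⟨η, hη⟩ : ∃ η : ℝ, η = 3 / (768 * ((n + 1) * 2 ^ n)) /
      (15 * ((Q : ℝ) * (Q + 1)) * 3 ^ n * (n + 3) + 1) := ⟨_, rfl⟩
  have hη0 : 0 < η := by rw [hη]; positivity
  have H3 : 15 * ((Q : ℝ) * (Q + 1)) * 3 ^ n * (n + 3) * η ≤ 3 / (768 * ((n + 1) * 2 ^ n)) := by
    have h1 : 0 ≤ 15 * ((Q : ℝ) * (Q + 1)) * 3 ^ n * (n + 3) := by positivity
    have h2 : (15 * ((Q : ℝ) * (Q + 1)) * 3 ^ n * (n + 3) + 1) * η = 3 / (768 * ((n + 1) * 2 ^ n)) := by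
      rw [hη]
      field_simp
    linarith
  obtain ⟨K, hK⟩ := exists_nat_ge (4 * Real.pi * (10 * (n + 1) * 6 ^ n) / η)
  have hK0' : (0 : ℝ) < K := lt_of_lt_of_le (by positivity) hK
  have hK0 : 0 < K := by exact_mod_cast hK0'
  have hKη : 4 * Real.pi * (10 * (n + 1) * 6 ^ n) / K ≤ η := by
    rw [div_le_iff₀ hK0']
    rw [div_le_iff₀ hη0] at hK
    linarith
  have hR0r : (0 : ℝ) < R0 := by exact_mod_cast hR0
  obtain ⟨M, hM⟩ : ∃ M : ℕ, (R0 : ℝ) < (1 + η) ^ M := pow_unbounded_of_one_lt _ (by linarith)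
  have hM' : (R0 : ℝ) < (1 + η) ^ (M + 1) := by
    rw [pow_succ]
    have h1 : 0 < (1 + η) ^ M := by positivity
    nlinarith
  set S := L ^ M with hS
  set N := L * (200 * (L ^ M * K ^ M)) with hN
  have hN0 : 0 < N := by positivity
  have hLN : L ∣ N := Dvd.intro _ rfl
  have hQN : Q ≤ N := (Nat.self_le_factorial Q).trans (Nat.le_of_dvd hN0 hLN)
  have hbig : 200 * (L ^ M * K ^ M) ≤ N := Nat.le_mul_of_pos_left _ hL0
  have hSN : 100 * S ≤ N := by
    have h1 : L ^ M ≤ L ^ M * K ^ M := Nat.le_mul_of_pos_right _ (by positivity)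
    omega
  have hS0 : 0 < S := by positivity
  set Z := ∑ i, aa n N i with hZ
  refine ⟨coef (aa n N) S, fun I hI => coef_ne hn hS0 (show S < N by omega)
    (fun i => (Nat.le_mul_of_pos_left _ (by positivity)).trans (aa_ge i)) I hI, ?_⟩
  intro r hr χ
  have hr0 : 0 < r := Fin.pos (χ 0)
  set v0 := 16 * ((2 * Z + 1) * (2 * 3 ^ n)) with hv0
  have hv00 : 0 < v0 := by positivity
  obtain ⟨X, hX⟩ : ∃ X, X = (K * L) ^ (M + 1) * v0 := ⟨_, rfl⟩
  have hX0 : 0 < X := by rw [hX]; positivity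
  obtain ⟨col, hcol⟩ := exists_dense χ hX0
  have hrr : (0 : ℝ) < r := by exact_mod_cast hr0
  have hrR : (r : ℝ) ≤ R0 := by exact_mod_cast hr
  obtain ⟨j, hj, c, hc1, hc2, β, hβα, hcnt, hcell⟩ := exists_cell (fun x => χ x = col) hK0 hL0 hv00 hη0.le
    (α := 1 / r) (M := M) (by
      rw [one_div, lt_inv_mul_iff₀ hrr, mul_one]
      linarith) hX hcol
  set v := (K * L) ^ (M - j) * v0 with hv
  have hvpos : 0 < v := by positivity
  obtain ⟨w, hw⟩ : ∃ w, w = K * (L * v) := ⟨_, rfl⟩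
  rw [← hw] at hcnt
  have hw0 : 0 < w := by rw [hw]; positivity
  have hwr : (0 : ℝ) < w := by exact_mod_cast hw0
  have hβ0 : 0 < β := lt_of_lt_of_le (by positivity) hβα
  have hβ1 : β ≤ 1 := by
    have h1 : (cnt (fun x => χ x = col) c (L ^ j) w : ℝ) ≤ w := by exact_mod_cast cnt_le _ _ _ _
    rw [hcnt] at h1
    have h2 : β * w ≤ 1 * w := by linarith
    exact le_of_mul_le_mul_right h2 hwr
  have hβR : 1 ≤ β * R0 := by
    have h1 : 1 / (r : ℝ) * R0 ≤ β * R0 := mul_le_mul_of_nonneg_right hβα hR0r.le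
    have h2 : 1 ≤ 1 / (r : ℝ) * R0 := by
      rw [one_div, le_inv_mul_iff₀ hrr]
      linarith
    linarith
  -- the weight
  set f : ℕ → ℝ := fun t => if χ (c + L ^ j * t) = col then 1 else 0 with hf
  have hf0 : ∀ t, 0 ≤ f t := fun t => by simp only [hf]; split_ifs <;> norm_num
  have hf1 : ∀ t, f t ≤ 1 := fun t => by simp only [hf]; split_ifs <;> norm_num
  have hsum : ∑ t ∈ range w, f t = β * w := by
    rw [← hcnt]
    simp only [hf, cnt]
    rw [Finset.sum_boole]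
  have hblock : ∀ κ < K, ∀ ρ < L, ∑ t ∈ range v, f (κ * (L * v) + ρ + L * t) ≤ (1 + η) * β * v := by
    intro κ hκ ρ hρ
    refine le_trans (le_of_eq ?_) (hcell κ hκ ρ hρ)
    simp only [hf, cnt]
    rw [Finset.sum_boole]
    congr 1
    refine congrArg Finset.card (Finset.filter_congr fun t _ => ?_)
    have h1 : c + L ^ j * (κ * (L * v) + ρ + L * t) = c + L ^ j * (κ * (L * v) + ρ) + L ^ (j + 1) * t := by
      rw [pow_succ]
      ring
    rw [h1]
  -- the target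
  obtain ⟨s, hs⟩ : ∃ s : ℤ, s = -((c * L ^ (M - j) : ℕ) : ℤ) := ⟨_, rfl⟩
  have hs0 : s ≤ 0 := by rw [hs]; exact neg_nonpos.mpr (by positivity)
  have hXw : X = (K * L) ^ j * w := by
    rw [hX, hw, hv, show M + 1 = j + ((M - j) + 1) by omega, pow_add, pow_succ]
    ring
  have hs1 : -((N : ℤ) * w) ≤ 100 * s := by
    have h1 : 100 * (c * L ^ (M - j)) ≤ N * w := by
      calc 100 * (c * L ^ (M - j)) ≤ 100 * (2 * X * L ^ (M - j)) :=
            Nat.mul_le_mul_left _ (Nat.mul_le_mul_right _ hc2.le)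
        _ = 200 * (L ^ M * K ^ j) * w := by
            rw [hXw, mul_pow, show L ^ M = L ^ j * L ^ (M - j) by rw [← pow_add]; congr 1; omega]
            ring
        _ ≤ 200 * (L ^ M * K ^ M) * w := by
            refine Nat.mul_le_mul_right _ (Nat.mul_le_mul_left _ (Nat.mul_le_mul_left _ ?_))
            exact Nat.pow_le_pow_right hK0 hj
        _ ≤ N * w := Nat.mul_le_mul_right _ hbig
    rw [hs]
    have h2 : ((100 * (c * L ^ (M - j)) : ℕ) : ℤ) ≤ ((N * w : ℕ) : ℤ) := by exact_mod_cast h1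
    push_cast at h2 ⊢
    linarith
  -- the side
  obtain ⟨g, hg⟩ : ∃ g, g = K * L * (K * L) ^ (M - j) * (2 * 3 ^ n) := ⟨_, rfl⟩
  have hg0 : 0 < g := by rw [hg]; positivity
  have hwg : w = 16 * ((2 * Z + 1) * g) := by
    rw [hw, hv, hg, hv0]
    ring
  have hwbig : 2 * Z * 3 ^ n < w := by
    rw [hwg, hg]
    have h1 : 1 ≤ K * L * (K * L) ^ (M - j) := Nat.one_le_iff_ne_zero.mpr (by positivity)
    have h2 : 0 < 3 ^ n := by positivity
    calc 2 * Z * 3 ^ n < 16 * ((2 * Z + 1) * (1 * (2 * 3 ^ n))) := by nlinarith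
      _ ≤ _ := Nat.mul_le_mul_left _ (Nat.mul_le_mul_left _ (Nat.mul_le_mul_right _ h1))
  obtain ⟨τ, hτ, hτs, hτf⟩ := cell_pos hn hK0 hL0 hvpos hw hg0 hwg hwbig hN0 hQN hLN
    (fun q hq hqQ => Nat.dvd_factorial hq hqQ) hSN hη0.le hKη hf0 hf1 hβ0 hβ1 hsum hblock hs0 hs1 hmd
    hδ0 hδ1 (by
      have h1 : Real.exp (δ ^ 2 * m / 2) * β * R0 = Real.exp (δ ^ 2 * m / 2) * (β * R0) := by ring
      have h2 : Real.exp (δ ^ 2 * m / 2) ≤ Real.exp (δ ^ 2 * m / 2) * (β * R0) :=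
        le_mul_of_one_le_right (Real.exp_pos _).le hβR
      have h3 : 3 / 2 * (R0 : ℝ) < Real.exp (δ ^ 2 * m / 2) * β * R0 := by linarith
      exact lt_of_mul_lt_mul_right h3 hR0r.le)
    (by
      have h1 : (1 : ℝ) ≤ β ^ 2 * R0 ^ 2 := by
        rw [← mul_pow]
        exact one_le_pow₀ hβR
      have h2 : 0 ≤ 1024 * ((n : ℝ) + 1) * n ^ 2 * δ ^ d := by positivity
      calc 1024 * ((n : ℝ) + 1) * n ^ 2 * δ ^ d ≤ 1024 * ((n : ℝ) + 1) * n ^ 2 * δ ^ d * (β ^ 2 * R0 ^ 2) :=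
            le_mul_of_one_le_right h2 h1
        _ = (1024 * ((n : ℝ) + 1) * n ^ 2 * δ ^ d * R0 ^ 2) * β ^ 2 := by ring
        _ ≤ 1 * β ^ 2 := mul_le_mul_of_nonneg_right H2 (by positivity)
        _ = β ^ 2 := one_mul _) H3
  refine ⟨fun i => c + L ^ j * τ i, fun i => (lt_of_lt_of_le hX0 hc1).trans_le (Nat.le_add_right _ _), ?_, ?_⟩
  · have h1 : ∀ i, χ (c + L ^ j * τ i) = col := by
      intro i
      have := hτf i
      simp only [hf] at this
      by_contra h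
      rw [if_neg h] at this
      exact this rfl
    intro i i'
    rw [h1 i, h1 i']
  · have h1 : ∑ i, coef (aa n N) S i * ((c + L ^ j * τ i : ℕ) : ℤ) =
        c * ∑ i, coef (aa n N) S i + L ^ j * ∑ i, coef (aa n N) S i * (τ i : ℤ) := by
      rw [Finset.mul_sum, Finset.mul_sum, ← Finset.sum_add_distrib]
      refine Finset.sum_congr rfl fun i _ => ?_
      push_cast
      ring
    rw [h1, hτs, sum_coef_eq, hs, hS]
    have h2 : ((L ^ M : ℕ) : ℤ) = (L : ℤ) ^ j * (L : ℤ) ^ (M - j) := by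
      rw [← pow_add]
      push_cast
      congr 1
      omega
    rw [h2]
    push_cast
    ring

end Pool.Agent.RadoE
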